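import Pool.Agent.Work.MP_542d22_co.S.Dirich

/-!
MODULE Green (M). Facts about `Z = (Mat q v0)⁻¹`, `π w = Z v0 w`, `Dm z w = Z w w - Z z w` for irreducible rates.
(1) `det ≠ 0`: if `Mat f = 0` then `Lap f y = -c` for all `y`, `c = f v0` (`mulVec_Mat`). At a maximum of `f`, `Lap f >= 0`, at a minimum `<= 0`, so `c = 0`, so
 `Lap f = 0` everywhere and `f v0 = 0`; `minp` with `A = {v0}` for `f` and `-f` gives `f = 0`.
(2) `Mat Z = 1`, `mulVec_Mat`: `Lap (Z · w) y = [y = w] - π w`; so `Lap (Dm · w) y = π w` for `y ≠ w` (Lap is linear and kills constants).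
(3) `Z Mat = 1`: `∑_w Z a w (φ v0 + Lap φ w) = φ a`; `Mat 1 = 1` (constant function, Lap 1 = 0) gives `∑_w Z a w = 1`; so
 `∑_w Z a w Lap φ w = φ a - φ v0` (for `a = v0`: `∑_w π w Lap φ w = 0`), and `Dm b w - Dm a w = Z a w - Z b w` gives the fifth fact.
(4) `π w > 0`: if `π w <= 0` then `f = Z · w` has `Lap f >= 0` everywhere; let `m = min f` and use `minp` with `A = {y1}`, `y1` a minimiser, for `f - m`: no information;
 instead: the set of minimisers is closed (at a minimiser all terms of Lap are <= 0, sum >= 0), hence `univ`, `f` is constant, `Lap f = 0`, so `[y = w] = π w` for all `y`,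
 impossible because `V` has two elements.
(5) `Dm z w >= 0`: `minp` with `A = {w}`.
-/

set_option autoImplicit false
set_option linter.unusedSectionVars false

namespace Pool.Agent.Work.MP_542d22_co.S

open Finset

variable {V E : Type} [Fintype V] [DecidableEq V] [Fintype E] [DecidableEq E]

private theorem gr_const (tail head : E → V) (q : E → ℝ) (hq : ∀ e, 0 < q e)
    (hirr : ∀ S : Finset V, S.Nonempty → Closed tail head q S → S = univ) [Nonempty V]
    (f : V → ℝ) (hf : ∀ y, 0 ≤ Lap tail head q f y) : ∀ y z, f y = f z := by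
  obtain ⟨y0, hy0⟩ := Finite.exists_min f
  have hS : (univ.filter fun y => f y = f y0) = univ := by
    refine hirr _ ⟨y0, by simp⟩ ?_
    intro e _ he
    rw [mem_filter] at he ⊢
    refine ⟨mem_univ _, ?_⟩
    have h1 := hf (tail e)
    unfold Lap at h1
    have h2 : ∀ e' ∈ (univ : Finset E),
        (if tail e' = tail e then q e' * (f (tail e) - f (head e')) else 0) ≤ 0 := by
      intro e' _
      split_ifs with h
      · have h3 := hy0 (head e')
        have h4 := hq e'
        rw [he.2]
        nlinarith
      · exact le_rfl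
    have h3 := (Finset.sum_eq_zero_iff_of_nonpos h2).1 (le_antisymm (Finset.sum_nonpos h2) h1) e
      (mem_univ _)
    rw [if_pos rfl, he.2] at h3
    rcases mul_eq_zero.1 h3 with h4 | h4
    · exact absurd h4 (hq e).ne'
    · linarith
  have h : ∀ y, f y = f y0 := by
    intro y
    have h1 : y ∈ (univ.filter fun y => f y = f y0) := by
      rw [hS]
      exact mem_univ _
    exact (mem_filter.1 h1).2
  intro y z
  rw [h y, h z]

private theorem gr_lap_const (tail head : E → V) (q : E → ℝ) (f : V → ℝ) (h : ∀ y z, f y = f z)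
    (y : V) : Lap tail head q f y = 0 := by
  unfold Lap
  refine Finset.sum_eq_zero fun e _ => ?_
  split_ifs
  · rw [h y (head e), sub_self, mul_zero]
  · rfl

private theorem gr_lap_sub (tail head : E → V) (q : E → ℝ) (f : V → ℝ) (c : ℝ) (y : V) :
    Lap tail head q (fun z => c - f z) y = -Lap tail head q f y := by
  unfold Lap
  rw [← Finset.sum_neg_distrib]
  refine Finset.sum_congr rfl fun e _ => ?_
  split_ifs
  · ring
  · simp

theorem green (tail head : E → V) (q : E → ℝ) (hq : ∀ e, 0 < q e)
    (hirr : ∀ S : Finset V, S.Nonempty → Closed tail head q S → S = univ) (v0 : V) [Nontrivial V] :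
    ∃ p : V → ℝ, (∀ w, 0 < p w) ∧ (∀ w, Dm tail head q v0 w w = 0) ∧
      (∀ z w, 0 ≤ Dm tail head q v0 z w) ∧
      (∀ w y, y ≠ w → Lap tail head q (fun z => Dm tail head q v0 z w) y = p w) ∧
      (∀ (a b : V) (φ : V → ℝ),
        ∑ w, (Dm tail head q v0 b w - Dm tail head q v0 a w) * Lap tail head q φ w = φ a - φ b) ∧
      ∀ φ : V → ℝ, ∑ w, p w * Lap tail head q φ w = 0 := by
  have hker : ∀ f : V → ℝ, (Mat tail head q v0).mulVec f = 0 → f = 0 := by
    intro f hf
    have h1 : ∀ y, f v0 + Lap tail head q f y = 0 := by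
      intro y
      rw [← mulVec_Mat, hf]
      rfl
    have hconst : ∀ y z, f y = f z := by
      rcases le_total (f v0) 0 with h2 | h2
      · exact gr_const tail head q hq hirr f fun y => by linarith [h1 y]
      · have h3 := gr_const tail head q hq hirr (fun z => 0 - f z) fun y => by
          rw [gr_lap_sub]
          linarith [h1 y]
        intro y z
        have h4 := h3 y z
        beta_reduce at h4
        linarith
    have h3 := h1 v0
    rw [gr_lap_const tail head q f hconst, add_zero] at h3
    funext y
    rw [hconst y v0, h3]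
    rfl
  have hdet : (Mat tail head q v0).det ≠ 0 := by
    intro h
    obtain ⟨f, hf0, hf⟩ := Matrix.exists_mulVec_eq_zero_iff.2 h
    exact hf0 (hker f hf)
  have hunit : IsUnit (Mat tail head q v0).det := isUnit_iff_ne_zero.2 hdet
  set Z := (Mat tail head q v0)⁻¹ with hZ
  have hMZ : Mat tail head q v0 * Z = 1 := Matrix.mul_nonsing_inv _ hunit
  have hZM : Z * Mat tail head q v0 = 1 := Matrix.nonsing_inv_mul _ hunit
  have hcol : ∀ w y, Z v0 w + Lap tail head q (fun z => Z z w) y = if y = w then 1 else 0 := by
    intro w y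
    have h1 := mulVec_Mat tail head q v0 (fun z => Z z w) y
    rw [← h1]
    have h2 := congrFun (congrFun hMZ y) w
    rw [Matrix.mul_apply, Matrix.one_apply] at h2
    exact h2
  have hrow : ∀ (a : V) (φ : V → ℝ), ∑ w, Z a w * (φ v0 + Lap tail head q φ w) = φ a := by
    intro a φ
    have h1 : Z.mulVec ((Mat tail head q v0).mulVec φ) = φ := by
      rw [Matrix.mulVec_mulVec, hZM, Matrix.one_mulVec]
    have h2 := congrFun h1 a
    rw [← h2]
    unfold Matrix.mulVec dotProduct
    refine Finset.sum_congr rfl fun w _ => ?_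
    congr 1
    exact (mulVec_Mat tail head q v0 φ w).symm
  have hsum : ∀ a : V, ∑ w, Z a w = 1 := by
    intro a
    have h1 := hrow a (fun _ => 1)
    have h2 : ∀ w, Lap tail head q (fun _ => (1 : ℝ)) w = 0 :=
      gr_lap_const tail head q (fun _ => 1) fun _ _ => rfl
    simp only [h2, add_zero, mul_one] at h1
    exact h1
  have hlap : ∀ (a : V) (φ : V → ℝ), ∑ w, Z a w * Lap tail head q φ w = φ a - φ v0 := by
    intro a φ
    have h1 := hrow a φ
    simp only [mul_add, Finset.sum_add_distrib, ← Finset.sum_mul, hsum, one_mul] at h1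
    linarith
  have hDm : ∀ z w, Dm tail head q v0 z w = Z w w - Z z w := fun z w => rfl
  have hlapD : ∀ w y, y ≠ w →
      Lap tail head q (fun z => Dm tail head q v0 z w) y = Z v0 w := by
    intro w y hy
    simp only [hDm]
    rw [gr_lap_sub]
    have h1 := hcol w y
    rw [if_neg hy] at h1
    linarith
  have hpos : ∀ w, 0 < Z v0 w := by
    intro w
    by_contra hcon
    push Not at hcon
    have h1 : ∀ y, 0 ≤ Lap tail head q (fun z => Z z w) y := by
      intro y
      have h2 := hcol w y
      split_ifs at h2 <;> linarith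
    have h2 := gr_lap_const tail head q _ (gr_const tail head q hq hirr _ h1) w
    have h3 := hcol w w
    rw [h2, if_pos rfl] at h3
    linarith
  refine ⟨fun w => Z v0 w, hpos, fun w => by rw [hDm, sub_self], fun z w => ?_, hlapD,
    fun a b φ => ?_, fun φ => ?_⟩
  · refine minp tail head q hq hirr {w} ⟨w, mem_singleton_self w⟩
      (fun z => Dm tail head q v0 z w) (fun y hy => ?_) (fun y hy => ?_) z
    · rw [mem_singleton.1 hy]
      beta_reduce
      rw [hDm, sub_self]
    · rw [hlapD w y (by simpa using hy)]
      exact (hpos w).le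
  · have h1 : ∀ w, (Dm tail head q v0 b w - Dm tail head q v0 a w) * Lap tail head q φ w =
        Z a w * Lap tail head q φ w - Z b w * Lap tail head q φ w := by
      intro w
      rw [hDm, hDm]
      ring
    simp only [h1, Finset.sum_sub_distrib, hlap]
    ring
  · beta_reduce
    rw [hlap, sub_self]

end Pool.Agent.Work.MP_542d22_co.S
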