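import Pool.Agent.Work.MP_542d22_co.S.Dirich

/-!
MODULE Key (M-L). The key inequality, from abstract data `p` (= stationary distribution π) and `D z w` (= π(w) E_z[T_w]).
Choose `(u, v)`, `u ≠ v`, minimising `h a b = D a b / p b` over all `a ≠ b`; `h0 = h u v`. So `D a b >= h0 * p b` for `a ≠ b`, `D u v = h0 * p v`, `h0 >= 0`.
(A) Some arc `u → v`: otherwise all `e` with `tail e = u` have `head e = z ≠ v` and `D z v >= h0 p v = D u v` (also for `z = u`), so `Lap (D · v) u <= 0 < p v`.
(B) Cut inequality. Let `u ∈ X`, `v ∉ X`. `β` := solution of `dirichlet` with `A = insert v X`, boundary values `1` at `v`, `0` on `X`; `0 <= β` (`minp`).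
 `φ = 1 - β`: `φ u = 1`, `φ v = 0`; `Lap φ w = 0` for `w ∉ X, w ≠ v`; for `w ∈ X`: `Lap φ w = ∑_{e : tail e = w, head e ∉ X} q e * β (head e)`
 (terms with `head e ∈ X` vanish). Put `g w = p w * h0 + D v w - D u w`. Then `g v = p v h0 + 0 - D u v = 0`.
 Hypothesis `hp` gives `∑_w p w * Lap φ w = 0`.
 So `∑_w g w * Lap φ w = φ u - φ v = 1` (hypothesis (iv) with `a = u`, `b = v`), i.e.
 `1 = ∑_{e : tail e ∈ X, head e ∉ X} g (tail e) * q e * β (head e)`.
 Bound each term, `w = tail e ∈ X`, `z = head e ∉ X`:
 (B1) `w ≠ u`: `g w <= D v w` (because `D u w >= h0 p w`), and `β z * D v w <= D z w`: `minp` with `A = insert v X` for `f = D · w - (D v w) β`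
   (at `v`: 0; on `X`: `D y w >= 0`; elsewhere `Lap f = p w >= 0`, note `w ∈ X`). As `β z >= 0`: `g w * β z <= D z w`.
 (B2) `w = u`, `z ≠ v`: `g u = p u h0 + D v u`. Let `α` := `dirichlet` with `A = {u, v}`, `α v = 1`, `α u = 0`. `e1 y = D y u / p u - α y * (D v u / p u)` and
   `e2 y = D y v / p v - (1 - α y) * h0` have `Lap = 1` off `{u,v}` and both vanish at `u` and at `v` (`e2 u = h0 - h0 = 0`), so `e1 = e2` (`minp` for the differences).
   `D z v / p v >= h0` gives `e2 z >= α z * h0`, so `D z u / p u >= α z (h0 + D v u / p u)`, and `β z <= α z` (`minp` for `α - β` with `A = insert v X`; `α >= 0`).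
   Hence `g u * β z <= D z u`.
 (B3) `w = u`, `z = v`: `β v = 1`, `g u = p u h0 + D v u <= 2 D v u`.
 Sum up: `1 <= ∑_{tail ∈ X, head ∉ X} q e D (head e) (tail e) + ∑_{tail = u, head = v} q e D (head e) (tail e)`.
-/

set_option autoImplicit false
set_option linter.unusedSectionVars false

namespace Pool.Agent.Work.MP_542d22_co.S

open Finset

variable {V E : Type} [Fintype V] [DecidableEq V] [Fintype E] [DecidableEq E]


private def KLap (q : V → V → ℝ) (f : V → ℝ) (y : V) : ℝ := ∑ z, q y z * (f y - f z)

private def KIrr (q : V → V → ℝ) : Prop :=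
  ∀ S : Finset V, S.Nonempty → S ≠ univ → ∃ a ∈ S, ∃ b, b ∉ S ∧ 0 < q a b

private theorem K_Lap_add (q : V → V → ℝ) (f g : V → ℝ) (y : V) :
    KLap q (fun x => f x + g x) y = KLap q f y + KLap q g y := by
  unfold KLap
  rw [← sum_add_distrib]
  exact sum_congr rfl fun z _ => by ring

private theorem K_Lap_sub (q : V → V → ℝ) (f g : V → ℝ) (y : V) :
    KLap q (fun x => f x - g x) y = KLap q f y - KLap q g y := by
  unfold KLap
  rw [← sum_sub_distrib]
  exact sum_congr rfl fun z _ => by ring

private theorem K_Lap_smul (q : V → V → ℝ) (c : ℝ) (f : V → ℝ) (y : V) :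
    KLap q (fun x => c * f x) y = c * KLap q f y := by
  unfold KLap
  rw [mul_sum]
  exact sum_congr rfl fun z _ => by ring

private theorem K_Lap_mul_const (q : V → V → ℝ) (c : ℝ) (f : V → ℝ) (y : V) :
    KLap q (fun x => f x * c) y = KLap q f y * c := by
  unfold KLap
  rw [sum_mul]
  exact sum_congr rfl fun z _ => by ring

private theorem K_Lap_neg (q : V → V → ℝ) (f : V → ℝ) (y : V) :
    KLap q (fun x => - f x) y = - KLap q f y := by
  unfold KLap
  rw [← sum_neg_distrib]
  exact sum_congr rfl fun z _ => by ring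

private theorem K_Lap_const (q : V → V → ℝ) (c : ℝ) (y : V) :
    KLap q (fun _ => c) y = 0 := by
  unfold KLap
  simp

/-- Minimum principle. -/
private theorem K_min_principle {q : V → V → ℝ} (hq : ∀ a b, 0 ≤ q a b) (hirr : KIrr q)
    (S : Finset V) (hS : S ≠ univ) (f : V → ℝ)
    (h1 : ∀ z ∈ S, 0 ≤ KLap q f z) (h2 : ∀ z, z ∉ S → 0 ≤ f z) : ∀ z, 0 ≤ f z := by
  intro z1
  by_contra hz1
  push Not at hz1
  obtain ⟨z0, _, hz0⟩ := exists_min_image univ f ⟨z1, mem_univ z1⟩
  have hneg : f z0 < 0 := lt_of_le_of_lt (hz0 z1 (mem_univ _)) hz1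
  obtain ⟨c, hc⟩ : ∃ c, c ∉ S := by
    by_contra hcon
    push Not at hcon
    exact hS (eq_univ_iff_forall.2 hcon)
  have hA : (univ.filter fun z => f z = f z0) ≠ univ := by
    intro hEq
    have : c ∈ univ.filter fun z => f z = f z0 := by rw [hEq]; exact mem_univ _
    have hc2 := (mem_filter.1 this).2
    have := h2 c hc
    linarith
  obtain ⟨a, ha, b, hb, hab⟩ := hirr _ ⟨z0, by simp⟩ hA
  have ha' : f a = f z0 := (mem_filter.1 ha).2
  have hb' : f z0 < f b := by
    refine lt_of_le_of_ne (hz0 b (mem_univ _)) fun hEq => hb ?_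
    simp [hEq]
  have haS : a ∈ S := by
    by_contra hcon
    have := h2 a hcon
    linarith
  have h3 := h1 a haS
  have h4 : KLap q f a < 0 := by
    unfold KLap
    have h5 : ∑ z, q a z * (f a - f z) < ∑ _z : V, (0 : ℝ) := by
      apply sum_lt_sum
      · intro z _
        have := hz0 z (mem_univ _)
        exact mul_nonpos_of_nonneg_of_nonpos (hq a z) (by linarith)
      · exact ⟨b, mem_univ _, mul_neg_of_pos_of_neg hab (by linarith)⟩
    simpa using h5
  linarith

/-- Uniqueness. -/
private theorem K_uniq {q : V → V → ℝ} (hq : ∀ a b, 0 ≤ q a b) (hirr : KIrr q)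
    (S : Finset V) (hS : S ≠ univ) (f : V → ℝ)
    (h1 : ∀ z ∈ S, KLap q f z = 0) (h2 : ∀ z, z ∉ S → f z = 0) : ∀ z, f z = 0 := by
  intro z
  have h3 := K_min_principle hq hirr S hS f (fun z hz => (h1 z hz).ge) (fun z hz => (h2 z hz).ge) z
  have h4 := K_min_principle hq hirr S hS (fun x => - f x)
    (fun z hz => by rw [K_Lap_neg, h1 z hz]; simp) (fun z hz => by rw [h2 z hz]; simp) z
  linarith

/-- The Dirichlet problem is solvable. -/
private theorem K_dirichlet {q : V → V → ℝ} (hq : ∀ a b, 0 ≤ q a b) (hirr : KIrr q)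
    (S : Finset V) (hS : S ≠ univ) (b : V → ℝ) :
    ∃ f : V → ℝ, (∀ z ∈ S, KLap q f z = 0) ∧ (∀ z, z ∉ S → f z = b z) := by
  let T : (V → ℝ) →ₗ[ℝ] (V → ℝ) :=
    { toFun := fun f z => if z ∈ S then KLap q f z else f z
      map_add' := by
        intro f g
        ext z
        by_cases hz : z ∈ S
        · simp only [hz, if_true, Pi.add_apply]
          exact K_Lap_add q f g z
        · simp [hz]
      map_smul' := by
        intro c f
        ext z
        by_cases hz : z ∈ S
        · simp only [hz, if_true, Pi.smul_apply, smul_eq_mul, RingHom.id_apply]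
          exact K_Lap_smul q c f z
        · simp [hz] }
  have hinj : Function.Injective T := by
    rw [← LinearMap.ker_eq_bot, LinearMap.ker_eq_bot']
    intro f hf
    have hf' : ∀ z, (if z ∈ S then KLap q f z else f z) = 0 := fun z => congrFun hf z
    ext z
    refine K_uniq hq hirr S hS f ?_ ?_ z
    · intro z hz
      have := hf' z
      rwa [if_pos hz] at this
    · intro z hz
      have := hf' z
      rwa [if_neg hz] at this
  have hsurj : Function.Surjective T := LinearMap.injective_iff_surjective.1 hinj
  obtain ⟨f, hf⟩ := hsurj (fun z => if z ∈ S then 0 else b z)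
  refine ⟨f, ?_, ?_⟩
  · intro z hz
    have := congrFun hf z
    simp only [hz, if_true] at this
    simpa [T, hz] using this
  · intro z hz
    have := congrFun hf z
    simpa [T, hz] using this


private theorem K_key [Nontrivial V] {q : V → V → ℝ} (hq : ∀ a b, 0 ≤ q a b) (hirr : KIrr q)
    (p : V → ℝ) (D : V → V → ℝ) (hpi : ∀ w, 0 < p w) (hD0 : ∀ w, D w w = 0)
    (hDn : ∀ z w, 0 ≤ D z w)
    (hDl : ∀ w y, y ≠ w → KLap q (fun z => D z w) y = p w)
    (hG : ∀ (a b : V) (φ : V → ℝ), ∑ w, (D b w - D a w) * KLap q φ w = φ a - φ b)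
    (hP : ∀ φ : V → ℝ, ∑ w, p w * KLap q φ w = 0) :
    ∃ u v : V, u ≠ v ∧ 0 < q u v ∧ ∀ X : Finset V, u ∈ X → v ∉ X →
      1 ≤ ∑ w ∈ X, ∑ z ∈ Xᶜ, q w z * D z w + q u v * D v u := by
  -- hitting times
  obtain ⟨hit, hhit⟩ : ∃ hit : V → V → ℝ, ∀ z w, hit z w = D z w / p w := ⟨_, fun _ _ => rfl⟩
  have hpm : ∀ z w, p w * hit z w = D z w := by
    intro z w
    have := hpi w
    rw [hhit]
    field_simp
  have hit_self : ∀ w, hit w w = 0 := by
    intro w
    rw [hhit, hD0]
    simp
  have hit_nonneg : ∀ z w, 0 ≤ hit z w := by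
    intro z w
    rw [hhit]
    exact div_nonneg (hDn z w) (hpi w).le
  have hit_lap : ∀ {z w}, z ≠ w → KLap q (fun x => hit x w) z = 1 := by
    intro z w hzw
    have h1 : (fun x => hit x w) = (fun x => D x w * (p w)⁻¹) := by
      funext x
      rw [hhit, div_eq_mul_inv]
    rw [h1, K_Lap_mul_const, hDl w z hzw]
    exact mul_inv_cancel₀ (hpi w).ne'
  have hit_triangle : ∀ z u v, hit z v ≤ hit z u + hit u v := by
    intro z u v
    have hS : (univ \ {u, v} : Finset V) ≠ univ := by
      intro hE
      have : u ∈ (univ \ {u, v} : Finset V) := by rw [hE]; exact mem_univ _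
      simp at this
    have h := K_min_principle hq hirr (univ \ {u, v}) hS
      (fun x => hit x u + hit u v - hit x v)
      (fun x hx => by
        have hx' : x ≠ u ∧ x ≠ v := by simpa using hx
        rw [K_Lap_sub, K_Lap_add, K_Lap_const, hit_lap hx'.1, hit_lap hx'.2]
        norm_num)
      (fun x hx => by
        have hx' : x = u ∨ x = v := by
          by_contra hcon
          exact hx (by simpa using hcon)
        rcases hx' with rfl | rfl
        · rw [hit_self]; simp
        · rw [hit_self]
          have h1 := hit_nonneg x u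
          have h2 := hit_nonneg u x
          linarith) z
    linarith
  obtain ⟨a0, b0, hab0⟩ := exists_pair_ne V
  obtain ⟨⟨u, v⟩, huv, hmin⟩ := exists_min_image
    ((univ : Finset (V × V)).filter fun p => p.1 ≠ p.2) (fun p => hit p.1 p.2)
    ⟨(a0, b0), by simp [hab0]⟩
  have huv' : u ≠ v := (mem_filter.1 huv).2
  have hmin' : ∀ a b, a ≠ b → hit u v ≤ hit a b := fun a b hab =>
    hmin (a, b) (by simp [hab])
  refine ⟨u, v, huv', ?_, ?_⟩
  · -- `0 < q u v`
    have h1 := hit_lap huv'
    unfold KLap at h1
    beta_reduce at h1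
    rw [← add_sum_erase univ _ (mem_univ v)] at h1
    have h2 : ∑ x ∈ univ.erase v, q u x * (hit u v - hit x v) ≤ 0 :=
      sum_nonpos fun x hx => mul_nonpos_of_nonneg_of_nonpos (hq u x)
        (by have := hmin' x v (ne_of_mem_erase hx); linarith)
    rw [hit_self, sub_zero] at h1
    have h3 : 1 ≤ q u v * hit u v := by linarith
    by_contra hcon
    have h4 : q u v = 0 := le_antisymm (not_lt.1 hcon) (hq u v)
    rw [h4, zero_mul] at h3
    linarith
  · intro X huX hvX
    -- `β`
    have hS : (univ \ (insert v X) : Finset V) ≠ univ := by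
      intro hE
      have : v ∈ (univ \ (insert v X) : Finset V) := by rw [hE]; exact mem_univ _
      simp at this
    obtain ⟨β, hβ1, hβ2⟩ := K_dirichlet hq hirr (univ \ (insert v X)) hS
      (fun z => if z = v then 1 else 0)
    have hβv : β v = 1 := by
      rw [hβ2 v (by simp)]; simp
    have hβX : ∀ z ∈ X, β z = 0 := by
      intro z hz
      rw [hβ2 z (by simp [hz])]
      have : z ≠ v := fun h => hvX (h ▸ hz)
      simp [this]
    have hβ0 : ∀ z, 0 ≤ β z :=
      K_min_principle hq hirr _ hS β (fun z hz => (hβ1 z hz).ge) (fun z hz => by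
        rw [hβ2 z hz]; split_ifs <;> norm_num)
    have hSmem : ∀ z, z ∈ (univ \ (insert v X) : Finset V) ↔ z ≠ v ∧ z ∉ X := by
      intro z; simp
    have hnotS : ∀ z, z ∉ (univ \ (insert v X) : Finset V) → z = v ∨ z ∈ X := by
      intro z hz
      rw [hSmem] at hz
      tauto
    set h0 := hit u v with hh0
    -- the identity
    have hid : ∑ w, (p w * h0 + D v w - D u w) * KLap q (fun x => 1 - β x) w = 1 := by
      have e1 := hP (fun x => 1 - β x)
      have e2 := hG u v (fun x => 1 - β x)
      have e4 : ∑ w, (p w * h0 + D v w - D u w) * KLap q (fun x => 1 - β x) w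
          = h0 * ∑ w, p w * KLap q (fun x => 1 - β x) w
            + ∑ w, (D v w - D u w) * KLap q (fun x => 1 - β x) w := by
        rw [mul_sum, ← sum_add_distrib]
        exact sum_congr rfl fun w _ => by ring
      rw [e4, e1, e2, hβv, hβX u huX]
      ring
    have hgv : p v * h0 + D v v - D u v = 0 := by
      have := hpm u v
      rw [← hh0] at this
      rw [hD0]
      linarith
    -- evaluate the identity
    have hev : ∑ w, (p w * h0 + D v w - D u w) * KLap q (fun x => 1 - β x) w
        = ∑ w ∈ X, ∑ z ∈ Xᶜ, q w z * ((p w * h0 + D v w - D u w) * β z) := by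
      rw [← sum_subset (subset_univ X)]
      · refine sum_congr rfl fun w hw => ?_
        unfold KLap
        beta_reduce
        rw [← sum_subset (subset_univ Xᶜ), mul_sum]
        · refine sum_congr rfl fun z _ => ?_
          rw [hβX w hw]
          ring
        · intro z _ hz
          have hz' : z ∈ X := by simpa using hz
          rw [hβX w hw, hβX z hz']
          ring
      · intro w _ hw
        by_cases hwv : w = v
        · rw [hwv, hgv, zero_mul]
        · rw [K_Lap_sub, K_Lap_const, hβ1 w ((hSmem w).2 ⟨hwv, hw⟩)]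
          ring
    rw [hev] at hid
    -- the bounds
    have hb1 : ∀ w ∈ X, w ≠ u → ∀ z, (p w * h0 + D v w - D u w) * β z ≤ D z w := by
      intro w hw hwu z
      have hwv : v ≠ w := fun h => hvX (h ▸ hw)
      have c1 : p w * h0 + D v w - D u w ≤ D v w := by
        have c2 := hpm u w
        have c3 := mul_le_mul_of_nonneg_left (hmin' u w (Ne.symm hwu)) (hpi w).le
        linarith
      have c4 := K_min_principle hq hirr _ hS (fun x => D x w - β x * D v w)
        (fun x hx => by
          have hxw : x ≠ w := fun h => ((hSmem x).1 hx).2 (h ▸ hw)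
          rw [K_Lap_sub, K_Lap_mul_const, hDl w x hxw, hβ1 x hx]
          have := hpi w
          linarith)
        (fun x hx => by
          rcases hnotS x hx with rfl | hxX
          · rw [hβv]; simp
          · rw [hβX x hxX]
            have := hDn x w
            linarith) z
      have c5 := mul_le_mul_of_nonneg_right c1 (hβ0 z)
      linarith
    have hb2 : ∀ z, z ≠ v → (p u * h0 + D v u - D u u) * β z ≤ D z u := by
      intro z hzv
      have c1 := K_min_principle hq hirr _ hS
        (fun x => hit x u - β x * hit v u - (hit x v - (1 - β x) * h0))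
        (fun x hx => by
          have hx' := (hSmem x).1 hx
          have hxu : x ≠ u := fun h => hx'.2 (h ▸ huX)
          rw [K_Lap_sub, K_Lap_sub, K_Lap_sub, K_Lap_mul_const, K_Lap_mul_const, K_Lap_sub,
            K_Lap_const, hit_lap hxu, hit_lap hx'.1, hβ1 x hx]
          norm_num)
        (fun x hx => by
          rcases hnotS x hx with rfl | hxX
          · rw [hβv, hit_self]; simp
          · rw [hβX x hxX]
            have := hit_triangle x u v
            rw [← hh0] at this
            linarith) z
      have c2 := hmin' z v hzv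
      have c3 : β z * (hit v u + h0) ≤ hit z u := by
        have : β z * (hit v u + h0) = β z * hit v u + β z * h0 := by ring
        linarith
      have c4 := mul_le_mul_of_nonneg_left c3 (hpi u).le
      rw [hpm z u] at c4
      have c5 := hpm v u
      have c6 : p u * (β z * (hit v u + h0))
          = (p u * h0 + p u * hit v u) * β z := by ring
      rw [c6, c5] at c4
      rw [hD0, sub_zero]
      exact c4
    have hb3 : (p u * h0 + D v u - D u u) * β v ≤ D v u + D v u := by
      have c1 := mul_le_mul_of_nonneg_left (hmin' v u huv'.symm) (hpi u).le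
      have c2 := hpm v u
      rw [hβv, hD0]
      linarith
    -- conclusion
    have hsum : ∑ w ∈ X, ∑ z ∈ Xᶜ, q w z * ((p w * h0 + D v w - D u w) * β z)
        ≤ ∑ w ∈ X, ∑ z ∈ Xᶜ, (q w z * D z w
          + if w = u then (if z = v then q u v * D v u else 0) else 0) := by
      refine sum_le_sum fun w hw => sum_le_sum fun z hz => ?_
      by_cases hwu : w = u
      · subst hwu
        rw [if_pos rfl]
        by_cases hzv : z = v
        · subst hzv
          rw [if_pos rfl, ← mul_add]
          exact mul_le_mul_of_nonneg_left hb3 (hq _ _)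
        · rw [if_neg hzv, add_zero]
          exact mul_le_mul_of_nonneg_left (hb2 z hzv) (hq _ _)
      · rw [if_neg hwu, add_zero]
        exact mul_le_mul_of_nonneg_left (hb1 w hw hwu z) (hq _ _)
    rw [hid] at hsum
    refine hsum.trans (le_of_eq ?_)
    have e1 : ∀ w ∈ X, ∑ z ∈ Xᶜ, (q w z * D z w
          + if w = u then (if z = v then q u v * D v u else 0) else 0)
        = ∑ z ∈ Xᶜ, q w z * D z w
          + if w = u then q u v * D v u else 0 := by
      intro w _
      rw [sum_add_distrib]
      congr 1
      by_cases hwu : w = u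
      · simp [hwu, hvX]
      · simp [hwu]
    rw [sum_congr rfl e1, sum_add_distrib]
    congr 1
    simp [huX]

theorem key (tail head : E → V) (q : E → ℝ) (hq : ∀ e, 0 < q e)
    (hirr : ∀ S : Finset V, S.Nonempty → Closed tail head q S → S = univ) [Nontrivial V]
    (p : V → ℝ) (D : V → V → ℝ) (h1 : ∀ w, 0 < p w) (h2 : ∀ w, D w w = 0) (h3 : ∀ z w, 0 ≤ D z w)
    (h4 : ∀ w y, y ≠ w → Lap tail head q (fun z => D z w) y = p w)
    (h5 : ∀ (a b : V) (φ : V → ℝ), ∑ w, (D b w - D a w) * Lap tail head q φ w = φ a - φ b)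
    (hp : ∀ φ : V → ℝ, ∑ w, p w * Lap tail head q φ w = 0) :
    ∃ u v, u ≠ v ∧ (∃ e, tail e = u ∧ head e = v) ∧ ∀ X : Finset V, u ∈ X → v ∉ X →
      1 ≤ (∑ e, if tail e ∈ X ∧ head e ∉ X then q e * D (head e) (tail e) else 0) +
        ∑ e, if tail e = u ∧ head e = v then q e * D (head e) (tail e) else 0 := by
  classical
  obtain ⟨Q, hQ⟩ : ∃ Q : V → V → ℝ, ∀ w z, Q w z = ∑ e, if tail e = w ∧ head e = z then q e else 0 :=
    ⟨_, fun _ _ => rfl⟩
  have hLap : ∀ (f : V → ℝ) (y : V), Lap tail head q f y = KLap Q f y := by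
    intro f y
    unfold Lap KLap
    simp only [hQ, sum_mul]
    rw [sum_comm]
    refine sum_congr rfl fun e _ => ?_
    by_cases h : tail e = y
    · simp [h, ite_mul]
    · simp [h]
  have hQn : ∀ a b, 0 ≤ Q a b := by
    intro a b
    rw [hQ]
    refine sum_nonneg fun e _ => ?_
    split_ifs
    · exact (hq e).le
    · exact le_refl _
  have hQi : KIrr Q := by
    intro S hS hSu
    by_contra hcon
    push Not at hcon
    apply hSu
    refine hirr S hS ?_
    intro e _ he
    by_contra hh
    have h1 := hcon (tail e) he (head e) hh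
    rw [hQ] at h1
    have h2 : 0 < ∑ e', if tail e' = tail e ∧ head e' = head e then q e' else 0 := by
      refine sum_pos' (fun e' _ => ?_) ⟨e, mem_univ _, ?_⟩
      · split_ifs
        · exact (hq e').le
        · exact le_refl _
      · simp [hq e]
    linarith
  obtain ⟨u, v, huv, hpos, hX⟩ := K_key hQn hQi p D h1 h2 h3
    (fun w y hyw => by rw [← hLap]; exact h4 w y hyw)
    (fun a b φ => by
      rw [← h5 a b φ]
      exact sum_congr rfl fun w _ => by rw [hLap])
    (fun φ => by
      rw [← hp φ]
      exact sum_congr rfl fun w _ => by rw [hLap])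
  refine ⟨u, v, huv, ?_, ?_⟩
  · by_contra hcon
    push Not at hcon
    have h6 : Q u v = 0 := by
      rw [hQ]
      refine sum_eq_zero fun e _ => ?_
      rw [if_neg]
      rintro ⟨ha, hb⟩
      exact hcon e ha hb
    linarith
  · intro X huX hvX
    refine (hX X huX hvX).trans (le_of_eq ?_)
    congr 1
    · simp only [hQ, sum_mul]
      have e1 : ∀ w ∈ X, ∑ z ∈ Xᶜ, ∑ e, (if tail e = w ∧ head e = z then q e else 0) * D z w
          = ∑ e, if tail e = w ∧ head e ∉ X then q e * D (head e) w else 0 := by
        intro w _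
        rw [sum_comm]
        refine sum_congr rfl fun e _ => ?_
        by_cases h : tail e = w
        · by_cases h' : head e ∈ X
          · rw [if_neg (by tauto)]
            refine sum_eq_zero fun z hz => ?_
            have hz' : z ∉ X := by simpa using hz
            rw [if_neg, zero_mul]
            rintro ⟨_, hb⟩
            exact hz' (hb ▸ h')
          · rw [if_pos ⟨h, h'⟩, sum_eq_single (head e)]
            · rw [if_pos ⟨h, rfl⟩]
            · intro z _ hz
              rw [if_neg, zero_mul]
              rintro ⟨_, hb⟩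
              exact hz hb.symm
            · intro hh
              exact absurd (by simpa using h') hh
        · rw [if_neg (by tauto)]
          refine sum_eq_zero fun z _ => ?_
          rw [if_neg (by tauto), zero_mul]
      rw [sum_congr rfl e1, sum_comm]
      refine sum_congr rfl fun e _ => ?_
      by_cases h : tail e ∈ X
      · by_cases h' : head e ∈ X
        · rw [if_neg (by tauto)]
          refine sum_eq_zero fun z _ => ?_
          rw [if_neg (by tauto)]
        · rw [if_pos ⟨h, h'⟩, sum_eq_single (tail e)]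
          · rw [if_pos ⟨rfl, h'⟩]
          · intro w _ hw
            rw [if_neg]
            rintro ⟨ha, _⟩
            exact hw ha.symm
          · intro hh
            exact absurd h hh
      · rw [if_neg (by tauto)]
        refine sum_eq_zero fun w hw => ?_
        rw [if_neg]
        rintro ⟨ha, _⟩
        exact h (ha ▸ hw)
    · rw [hQ, sum_mul]
      refine sum_congr rfl fun e _ => ?_
      by_cases h : tail e = u ∧ head e = v
      · rw [if_pos h, if_pos h, h.1, h.2]
      · rw [if_neg h, if_neg h, zero_mul]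

end Pool.Agent.Work.MP_542d22_co.S
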