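import Pool.Agent.Work.MP_542d22_co.S.Lower

/-!
MODULE Minim (M-L). Existence of good rates. Write `T q = (Mat tail head q v0).det`, `N = card ι`, everything for `0 < q e <= 1`.
(1) `T q ^ N >= ∏_i ∏_{e ∈ τ i} q e = ∏_e q e ^ (n_e) >= ∏_e q e ^ K` by `lower` (`n_e` = number of `i` with `e ∈ τ i`, `n_e <= K`, `q e <= 1`).
 So `T q ^ (2N) >= ∏_e q e ^ (2K)`, and `T q > 0`.
(2) Let `Ψ q = T q ^ (2N) / ∏_e q e ^ (2K+1)`, so `Ψ q >= 1 / ∏_e q e`. Let `c0 = Ψ 1` (`q = 1` constant) and `δ ∈ (0,1)` with `1/δ > c0`.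
 On the compact box `[δ,1]^E` the continuous function `Ψ` attains its minimum at some `q` (`IsCompact.exists_isMinOn`, `isCompact_univ_pi` / `Set.Icc`);
 if some `q e = δ` then `Ψ q >= 1/∏ q >= 1/δ > c0 = Ψ 1`, impossible; so all `q e > δ`.
(3) Fix `e`, `x = q e * Dm (head e) (tail e)`. For small `s > 0` the point `Function.update q e (q e + (-(s * q e)))` is in the box, and by `det_update`
 its `T` is `T q * (1 - s x)`. Minimality: `(1 - s x)^(2N) >= (1 - s)^(2K+1)` for all small `s > 0`. Compare derivatives at `s = 0`: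
 `2 N x <= 2 K + 1` (both sides are 1 at `s = 0`; e.g. the function `s ↦ (1 - s x)^(2N) - (1 - s)^(2K+1)` is >= 0 on `[0, s0)` and 0 at 0,
 its derivative at 0 is `-2 N x + 2K+1 >= 0`).
-/

set_option autoImplicit false
set_option linter.unusedSectionVars false

namespace Pool.Agent.Work.MP_542d22_co.S

open Finset

variable {V E : Type} [Fintype V] [DecidableEq V] [Fintype E] [DecidableEq E]

private theorem cont_T (tail head : E → V) (v0 : V) :
    Continuous fun q : E → ℝ => (Mat tail head q v0).det := by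
  refine Continuous.matrix_det ?_
  refine continuous_matrix fun y z => ?_
  simp only [Mat, Matrix.of_apply]
  refine continuous_const.add (continuous_finsetSum _ fun e _ => ?_)
  by_cases h : tail e = y
  · simp only [h, if_true]
    exact (continuous_apply e).mul continuous_const
  · simp only [h, if_false]
    exact continuous_const

private theorem slope_le (x : ℝ) (a b : ℕ) (s0 : ℝ) (hs0 : 0 < s0)
    (h : ∀ s, 0 < s → s < s0 → (1 - s) ^ b ≤ (1 - s * x) ^ a) : (a : ℝ) * x ≤ b := by
  have h1 : HasDerivAt (fun s : ℝ => (1 - s * x) ^ a - (1 - s) ^ b)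
      ((a : ℝ) * (1 - 0 * x) ^ (a - 1) * (0 - 1 * x) - (b : ℝ) * (1 - 0) ^ (b - 1) * (0 - 1)) 0 := by
    have h2 : HasDerivAt (fun s : ℝ => 1 - s * x) (0 - 1 * x) 0 :=
      (hasDerivAt_const (0 : ℝ) (1 : ℝ)).sub ((hasDerivAt_id (0 : ℝ)).mul_const x)
    have h3 : HasDerivAt (fun s : ℝ => 1 - s) (0 - 1) 0 :=
      (hasDerivAt_const (0 : ℝ) (1 : ℝ)).sub (hasDerivAt_id (0 : ℝ))
    exact (h2.pow a).sub (h3.pow b)
  have h2 := h1.tendsto_slope_zero_right
  have h3 : 0 ≤ ((a : ℝ) * (1 - 0 * x) ^ (a - 1) * (0 - 1 * x) -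
      (b : ℝ) * (1 - 0) ^ (b - 1) * (0 - 1)) := by
    refine ge_of_tendsto h2 ?_
    have h4 : Set.Ioo (0 : ℝ) s0 ∈ nhdsWithin (0 : ℝ) (Set.Ioi 0) := Ioo_mem_nhdsGT hs0
    filter_upwards [h4] with s hs
    have h5 := h s hs.1 hs.2
    have h6 : 0 < s⁻¹ := inv_pos.2 hs.1
    simp only [smul_eq_mul, zero_add, zero_mul, sub_zero, one_pow, sub_self]
    exact mul_nonneg h6.le (by linarith)
  simp only [zero_mul, sub_zero, one_pow, mul_one] at h3
  linarith

theorem minim (tail head : E → V) (v0 : V) (ι : Type) [Fintype ι] [Nonempty ι] (K : ℕ) (w : ι → V)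
    (τ : ι → Finset E) (hτ : ∀ i, IsArb tail head (w i) (τ i))
    (hK : ∀ e, (univ.filter fun i => e ∈ τ i).card ≤ K) :
    ∃ q : E → ℝ, (∀ e, 0 < q e) ∧
      ∀ e, 2 * (Fintype.card ι : ℝ) * (q e * Dm tail head q v0 (head e) (tail e)) ≤ 2 * K + 1 := by
  classical
  have hTpos : ∀ q : E → ℝ, (∀ e, 0 < q e) → 0 < (Mat tail head q v0).det := by
    intro q hq
    obtain ⟨i⟩ := ‹Nonempty ι›
    exact lt_of_lt_of_le (Finset.prod_pos fun e _ => hq e) (lower tail head q hq v0 (w i) (τ i) (hτ i))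
  have hTK : ∀ q : E → ℝ, (∀ e, 0 < q e) → (∀ e, q e ≤ 1) →
      (∏ e, q e) ^ K ≤ (Mat tail head q v0).det ^ (Fintype.card ι) := by
    intro q hq hq1
    have h1 : ∏ i : ι, ∏ e ∈ τ i, q e ≤ ∏ _i : ι, (Mat tail head q v0).det :=
      Finset.prod_le_prod (fun i _ => Finset.prod_nonneg fun e _ => (hq e).le)
        (fun i _ => lower tail head q hq v0 (w i) (τ i) (hτ i))
    rw [Finset.prod_const, Finset.card_univ] at h1
    refine le_trans ?_ h1
    have h2 : ∏ i : ι, ∏ e ∈ τ i, q e = ∏ e, q e ^ (univ.filter fun i => e ∈ τ i).card := by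
      have h3 : ∀ i : ι, ∏ e ∈ τ i, q e = ∏ e, if e ∈ τ i then q e else 1 := by
        intro i
        rw [Finset.prod_ite_mem, Finset.univ_inter]
      rw [Finset.prod_congr rfl fun i _ => h3 i, Finset.prod_comm]
      refine Finset.prod_congr rfl fun e _ => ?_
      rw [Finset.prod_ite, Finset.prod_const, Finset.prod_const_one, mul_one]
    rw [h2, ← Finset.prod_pow]
    exact Finset.prod_le_prod (fun e _ => (pow_pos (hq e) K).le)
      (fun e _ => pow_le_pow_of_le_one (hq e).le (hq1 e) (hK e))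
  have hPpos : ∀ q : E → ℝ, (∀ e, 0 < q e) → 0 < ∏ e, q e := fun q hq =>
    Finset.prod_pos fun e _ => hq e
  set N := Fintype.card ι with hN
  -- the function to minimise
  have hlow : ∀ q : E → ℝ, (∀ e, 0 < q e) → (∀ e, q e ≤ 1) →
      1 / (∏ e, q e) ≤ (Mat tail head q v0).det ^ (2 * N) / (∏ e, q e) ^ (2 * K + 1) := by
    intro q hq hq1
    have h1 := hPpos q hq
    rw [div_le_div_iff₀ h1 (pow_pos h1 _), one_mul]
    have h2 := hTK q hq hq1
    have h3 : ((∏ e, q e) ^ K) ^ 2 ≤ ((Mat tail head q v0).det ^ N) ^ 2 :=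
      pow_le_pow_left₀ (pow_pos h1 _).le h2 2
    calc (∏ e, q e) ^ (2 * K + 1) = ((∏ e, q e) ^ K) ^ 2 * (∏ e, q e) := by ring
      _ ≤ ((Mat tail head q v0).det ^ N) ^ 2 * (∏ e, q e) := mul_le_mul_of_nonneg_right h3 h1.le
      _ = (Mat tail head q v0).det ^ (2 * N) * ∏ e, q e := by ring
  set c0 : ℝ := (Mat tail head (fun _ : E => (1 : ℝ)) v0).det ^ (2 * N) with hc0
  have hc0pos : 0 < c0 := pow_pos (hTpos _ fun _ => one_pos) _
  set δ : ℝ := 1 / (c0 + 2) with hδ
  have hδpos : 0 < δ := by positivity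
  have hδ1 : δ < 1 := by
    rw [hδ, div_lt_one (by positivity)]
    linarith
  have hδc : c0 < 1 / δ := by
    rw [hδ, one_div_one_div]
    linarith
  set box : Set (E → ℝ) := Set.pi Set.univ fun _ => Set.Icc δ 1 with hbox
  have hboxc : IsCompact box := isCompact_univ_pi fun _ => isCompact_Icc
  have hbox1 : (fun _ : E => (1 : ℝ)) ∈ box := by
    intro e _
    exact ⟨hδ1.le, le_rfl⟩
  have hboxpos : ∀ q ∈ box, ∀ e, 0 < q e := fun q hq e =>
    lt_of_lt_of_le hδpos (hq e (Set.mem_univ e)).1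
  have hboxle : ∀ q ∈ box, ∀ e, q e ≤ 1 := fun q hq e => (hq e (Set.mem_univ e)).2
  have hcont : ContinuousOn (fun q : E → ℝ =>
      (Mat tail head q v0).det ^ (2 * N) / (∏ e, q e) ^ (2 * K + 1)) box := by
    refine ContinuousOn.div ?_ ?_ ?_
    · exact ((cont_T tail head v0).pow _).continuousOn
    · exact ((continuous_finsetProd _ fun e _ => continuous_apply e).pow _).continuousOn
    · intro q hq
      exact (pow_pos (hPpos q (hboxpos q hq)) _).ne'
  obtain ⟨q, hq, hmin⟩ := hboxc.exists_isMinOn ⟨_, hbox1⟩ hcont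
  have hqpos := hboxpos q hq
  have hqle := hboxle q hq
  have hqδ : ∀ e, δ < q e := by
    intro e
    refine lt_of_le_of_ne (hq e (Set.mem_univ e)).1 fun heq => ?_
    have h1 : (Mat tail head q v0).det ^ (2 * N) / (∏ e, q e) ^ (2 * K + 1) ≤
        (Mat tail head (fun _ : E => (1 : ℝ)) v0).det ^ (2 * N) /
          (∏ _e : E, (1 : ℝ)) ^ (2 * K + 1) := hmin hbox1
    rw [Finset.prod_const_one, one_pow, div_one] at h1
    have h2 := hlow q hqpos hqle
    have h3 : ∏ e, q e ≤ δ := by
      rw [heq]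
      rw [← Finset.mul_prod_erase univ q (mem_univ e)]
      have h4 : ∏ x ∈ univ.erase e, q x ≤ 1 :=
        Finset.prod_le_one (fun x _ => (hqpos x).le) (fun x _ => hqle x)
      calc q e * ∏ x ∈ univ.erase e, q x ≤ q e * 1 := mul_le_mul_of_nonneg_left h4 (hqpos e).le
        _ = q e := mul_one _
    have h5 : 1 / δ ≤ 1 / ∏ e, q e := one_div_le_one_div_of_le (hPpos q hqpos) h3
    linarith
  refine ⟨q, hqpos, fun e => ?_⟩
  set x : ℝ := q e * Dm tail head q v0 (head e) (tail e) with hx
  have hslope : (((2 * N : ℕ)) : ℝ) * x ≤ ((2 * K + 1 : ℕ) : ℝ) := by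
    refine slope_le x (2 * N) (2 * K + 1) (1 - δ / q e) ?_ ?_
    · have : δ / q e < 1 := (div_lt_one (hqpos e)).2 (hqδ e)
      linarith
    · intro s hs hs1
      have hs2 : s < 1 := by
        have : 0 < δ / q e := div_pos hδpos (hqpos e)
        linarith
      have hs3 : δ ≤ q e * (1 - s) := by
        have h1 : δ / q e ≤ 1 - s := by linarith
        rw [div_le_iff₀ (hqpos e)] at h1
        linarith
      set q' : E → ℝ := Function.update q e (q e + (-(s * q e))) with hq'
      have hq'box : q' ∈ box := by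
        intro e' _
        by_cases h : e' = e
        · subst h
          rw [hq', Function.update_self]
          constructor
          · linarith
          · have h2 := hqle e'
            have h3 := mul_pos hs (hqpos e')
            linarith
        · rw [hq', Function.update_of_ne h]
          exact hq e' (Set.mem_univ e')
      have h1 : (Mat tail head q v0).det ^ (2 * N) / (∏ e, q e) ^ (2 * K + 1) ≤
        (Mat tail head q' v0).det ^ (2 * N) / (∏ e, q' e) ^ (2 * K + 1) := hmin hq'box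
      have hTq := hTpos q hqpos
      have h2 : (Mat tail head q' v0).det = (Mat tail head q v0).det * (1 - s * x) := by
        rw [hq', det_update tail head q v0 e _ hTq.ne', hx]
        ring
      have h3 : ∏ e', q' e' = (∏ e', q e') * (1 - s) := by
        rw [← Finset.mul_prod_erase univ q' (mem_univ e), ← Finset.mul_prod_erase univ q (mem_univ e)]
        have h4 : ∏ x ∈ univ.erase e, q' x = ∏ x ∈ univ.erase e, q x := by
          refine Finset.prod_congr rfl fun y hy => ?_
          rw [hq', Function.update_of_ne (Finset.ne_of_mem_erase hy)]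
        rw [h4, hq', Function.update_self]
        ring
      rw [h2, h3, mul_pow, mul_pow] at h1
      have hP := hPpos q hqpos
      have h1s : 0 < 1 - s := by linarith
      rw [div_le_div_iff₀ (pow_pos hP _) (mul_pos (pow_pos hP _) (pow_pos h1s _))] at h1
      have hA : 0 < (Mat tail head q v0).det ^ (2 * N) * (∏ e, q e) ^ (2 * K + 1) :=
        mul_pos (pow_pos hTq _) (pow_pos hP _)
      refine le_of_mul_le_mul_left ?_ hA
      calc (Mat tail head q v0).det ^ (2 * N) * (∏ e, q e) ^ (2 * K + 1) * (1 - s) ^ (2 * K + 1)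
          = (Mat tail head q v0).det ^ (2 * N) *
              ((∏ e, q e) ^ (2 * K + 1) * (1 - s) ^ (2 * K + 1)) := by ring
        _ ≤ (Mat tail head q v0).det ^ (2 * N) * (1 - s * x) ^ (2 * N) *
              (∏ e, q e) ^ (2 * K + 1) := h1
        _ = (Mat tail head q v0).det ^ (2 * N) * (∏ e, q e) ^ (2 * K + 1) *
              (1 - s * x) ^ (2 * N) := by ring
  push_cast at hslope
  linarith

end Pool.Agent.Work.MP_542d22_co.S
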