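import Pool.Agent.Work.MP_542d22_co.S.Packing
import Pool.Agent.Work.MP_542d22_co.S.Minim
import Pool.Agent.Work.MP_542d22_co.S.Green
import Pool.Agent.Work.MP_542d22_co.S.Key

/-!
MODULE Core (M). Assembly for the minimal set.
Irreducibility: if `S` is nonempty, closed and `≠ univ` then no arc leaves `S` (all rates positive), so `r <= ∑_S δ <= ∑ δ < r`, contradiction.
`E` is nonempty (`V` has two elements, `S` = a singleton: if there were no arcs again `r <= ∑ δ`). `m = card E`.
`minim` with `ι = E × Fin r` (nonempty since `r > ∑ δ >= 0`), `τ (a, i) = F_a i` from `packing`, `K = m - 1` (for fixed `e`: at most one `i` for each `a ≠ e`, none for `a = e`):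
`2 m r x_e <= 2 m - 1`, i.e. `r x_e < 1` for every arc, `x_e = q e * Dm (head e) (tail e)`.
`green` + `key` (with `D = Dm q v0`, any `v0`): `u ≠ v`, an arc `e` from `u` to `v`, and `1 <= ∑_{cut arcs} x + ∑_{arcs u → v} x`; multiply by `r`:
`r <= ∑ r x < ` number of terms (the second sum has at least one term, so strict): `r < d+(X) + μ(u,v)`.
-/

set_option autoImplicit false
set_option linter.unusedSectionVars false

namespace Pool.Agent.Work.MP_542d22_co.S

open Finset

variable {V E : Type} [Fintype V] [DecidableEq V] [Fintype E] [DecidableEq E]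

theorem core (tail head : E → V) [Nontrivial V] (r : ℕ) (δ : V → ℕ) (hsum : ∑ v, δ v < r)
    (hcut : ∀ S : Finset V, S.Nonempty → S ≠ univ →
      r ≤ (univ.filter fun e => tail e ∈ S ∧ head e ∉ S).card + ∑ v ∈ S, δ v) :
    ∃ e : E, tail e ≠ head e ∧ ∀ X : Finset V, tail e ∈ X → head e ∉ X →
      r < (univ.filter fun e' => tail e' ∈ X ∧ head e' ∉ X).card +
        (univ.filter fun e' => tail e' = tail e ∧ head e' = head e).card := by
  classical
  have hr : 0 < r := by omega
  have hle : ∀ S : Finset V, ∑ v ∈ S, δ v ≤ ∑ v, δ v := fun S =>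
    sum_le_sum_of_subset (subset_univ S)
  obtain ⟨v0, v1, hv01⟩ := exists_pair_ne V
  have hE : Nonempty E := by
    by_contra hemp
    rw [not_nonempty_iff] at hemp
    have h1 := hcut {v0} (singleton_nonempty _) (by
      intro h
      have : v1 ∈ ({v0} : Finset V) := by rw [h]; exact mem_univ _
      exact hv01 (mem_singleton.1 this).symm)
    have h2 : (univ.filter fun e : E => tail e ∈ ({v0} : Finset V) ∧ head e ∉ ({v0} : Finset V))
        = ∅ := by
      ext e
      exact hemp.elim e
    rw [h2, card_empty] at h1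
    have := hle {v0}
    omega
  have hm : 1 ≤ Fintype.card E := Fintype.card_pos
  choose F w hdisj hF using fun a => packing tail head r δ hsum hcut a
  have : Nonempty (E × Fin r) := ⟨(Classical.choice hE, ⟨0, hr⟩)⟩
  obtain ⟨q, hq, hx⟩ := minim tail head v0 (E × Fin r) (Fintype.card E - 1)
    (fun z => w z.1 z.2) (fun z => F z.1 z.2) (fun z => (hF z.1 z.2).2) (by
      intro e
      have h1 : ((univ : Finset (E × Fin r)).filter (fun z => e ∈ F z.1 z.2)).card
          ≤ (univ.erase e).card := by
        refine card_le_card_of_injOn (fun z => z.1) ?_ ?_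
        · intro z hz
          have hz' := (mem_filter.1 (mem_coe.1 hz)).2
          refine mem_coe.2 (mem_erase.2 ⟨?_, mem_univ _⟩)
          rintro rfl
          exact (hF z.1 z.2).1 hz'
        · intro z hz z' hz' heq
          have h1 := (mem_filter.1 (mem_coe.1 hz)).2
          have h2 := (mem_filter.1 (mem_coe.1 hz')).2
          obtain ⟨a, i⟩ := z
          obtain ⟨a', i'⟩ := z'
          have haa : a = a' := heq
          subst haa
          by_contra hne
          have hii : i ≠ i' := fun h => hne (by rw [h])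
          exact disjoint_left.1 (hdisj a i i' hii) h1 h2
      rw [card_erase_of_mem (mem_univ _), card_univ] at h1
      exact h1)
  have hirr : ∀ S : Finset V, S.Nonempty → Closed tail head q S → S = univ := by
    intro S hS hcl
    by_contra hne
    have h1 := hcut S hS hne
    have h2 : (univ.filter fun e : E => tail e ∈ S ∧ head e ∉ S) = ∅ := by
      ext e
      simp only [mem_filter, mem_univ, true_and, notMem_empty, iff_false, not_and, not_not]
      exact fun h => hcl e (hq e) h
    rw [h2, card_empty] at h1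
    have := hle S
    omega
  -- the values `x_e`
  have hx1 : ∀ e, (r : ℝ) * (q e * Dm tail head q v0 (head e) (tail e)) < 1 := by
    intro e
    have h1 := hx e
    rw [Fintype.card_prod, Fintype.card_fin] at h1
    have hmR : (1 : ℝ) ≤ (Fintype.card E : ℝ) := by exact_mod_cast hm
    have h2 : ((Fintype.card E - 1 : ℕ) : ℝ) = (Fintype.card E : ℝ) - 1 := by
      rw [Nat.cast_sub hm]
      simp
    rw [h2] at h1
    push_cast at h1
    by_contra hcon
    push Not at hcon
    nlinarith [mul_le_mul_of_nonneg_left hcon (by linarith : (0 : ℝ) ≤ 2 * (Fintype.card E : ℝ))]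
  obtain ⟨p, hp1, hp2, hp3, hp4, hp5, hp6⟩ := green tail head q hq hirr v0
  obtain ⟨u, v, huv, ⟨e0, he0, he0'⟩, hkey⟩ := key tail head q hq hirr p
    (fun z w => Dm tail head q v0 z w) hp1 hp2 hp3 hp4 hp5 hp6
  refine ⟨e0, by rw [he0, he0']; exact huv, fun X hX1 hX2 => ?_⟩
  rw [he0] at hX1
  rw [he0'] at hX2
  have hk := hkey X hX1 hX2
  rw [← sum_filter, ← sum_filter] at hk
  have hrR : (0 : ℝ) < r := by exact_mod_cast hr
  have hk2 := mul_le_mul_of_nonneg_left hk hrR.le
  rw [mul_one, mul_add, mul_sum, mul_sum] at hk2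
  have b1 : ∑ e ∈ univ.filter (fun e => tail e ∈ X ∧ head e ∉ X),
      (r : ℝ) * (q e * Dm tail head q v0 (head e) (tail e))
      ≤ ∑ e ∈ univ.filter (fun e => tail e ∈ X ∧ head e ∉ X), (1 : ℝ) :=
    sum_le_sum fun e _ => (hx1 e).le
  have b2 : ∑ e ∈ univ.filter (fun e => tail e = u ∧ head e = v),
      (r : ℝ) * (q e * Dm tail head q v0 (head e) (tail e))
      < ∑ e ∈ univ.filter (fun e => tail e = u ∧ head e = v), (1 : ℝ) :=
    sum_lt_sum_of_nonempty ⟨e0, mem_filter.2 ⟨mem_univ _, he0, he0'⟩⟩ fun e _ => hx1 e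
  have b3 : (r : ℝ) < (((univ.filter fun e' => tail e' ∈ X ∧ head e' ∉ X).card +
        (univ.filter fun e' => tail e' = u ∧ head e' = v).card : ℕ) : ℝ) := by
    push_cast
    simp only [sum_const, nsmul_eq_mul, mul_one] at b1 b2
    linarith
  rw [he0, he0']
  exact_mod_cast b3

end Pool.Agent.Work.MP_542d22_co.S
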