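import Mathlib

/-!
MP_542d22 (Mader's conjecture for simple digraphs), definitions. Proof: /team-store/NOTES_542d22_PROOF.md.
`V` vertices, `E` arcs, `tail head : E → V`, `q : E → ℝ` rates.
-/

set_option autoImplicit false
set_option linter.unusedSectionVars false

namespace Pool.Agent.Work.MP_542d22_co.S

open Finset

variable {V E : Type} [Fintype V] [DecidableEq V] [Fintype E] [DecidableEq E]

/-- The generator `(L f)(y) = ∑_{e : tail e = y} q e (f y - f (head e))`. -/
def Lap (tail head : E → V) (q : E → ℝ) (f : V → ℝ) (y : V) : ℝ :=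
  ∑ e, if tail e = y then q e * (f y - f (head e)) else 0

/-- The matrix `L + 1 e_{v0}^T`. -/
def Mat (tail head : E → V) (q : E → ℝ) (v0 : V) : Matrix V V ℝ :=
  Matrix.of fun y z => (if z = v0 then 1 else 0) +
    ∑ e, if tail e = y then q e * ((if z = y then 1 else 0) - (if z = head e then 1 else 0)) else 0

/-- `S` is closed: no arc of positive rate leaves `S`. -/
def Closed (tail head : E → V) (q : E → ℝ) (S : Finset V) : Prop :=
  ∀ e, 0 < q e → tail e ∈ S → head e ∈ S

/-- `D(z, w) = Z(w, w) - Z(z, w)`, `Z` the inverse of `Mat` (this is `π(w) E_z[T_w]`). -/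
noncomputable def Dm (tail head : E → V) (q : E → ℝ) (v0 z w : V) : ℝ :=
  (Mat tail head q v0)⁻¹ w w - (Mat tail head q v0)⁻¹ z w

/-- `τ` is the arc set of a spanning in-arborescence with root `w0`: every vertex other than `w0` is the tail of exactly
one arc of `τ`, the root of none, and a depth function decreases along the arcs of `τ`. -/
def IsArb (tail head : E → V) (w0 : V) (τ : Finset E) : Prop :=
  (∀ e ∈ τ, tail e ≠ w0) ∧ (∀ v, v ≠ w0 → ∃ e ∈ τ, tail e = v) ∧
    (∀ e ∈ τ, ∀ e' ∈ τ, tail e = tail e' → e = e') ∧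
    ∃ d : V → ℕ, ∀ e ∈ τ, d (head e) < d (tail e)

theorem mulVec_Mat (tail head : E → V) (q : E → ℝ) (v0 : V) (f : V → ℝ) (y : V) :
    (Mat tail head q v0).mulVec f y = f v0 + Lap tail head q f y := by
  unfold Matrix.mulVec dotProduct Mat Lap
  simp only [Matrix.of_apply, add_mul, Finset.sum_add_distrib, Finset.sum_mul, ite_mul, one_mul,
    zero_mul, Finset.sum_ite_eq', Finset.mem_univ, if_true]
  congr 1
  rw [Finset.sum_comm]
  refine Finset.sum_congr rfl fun e _ => ?_
  by_cases h : tail e = y
  · simp only [h, if_true]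
    simp only [mul_assoc, sub_mul, ite_mul, one_mul, zero_mul, mul_sub, Finset.sum_sub_distrib,
      mul_ite, mul_zero, Finset.sum_ite_eq', Finset.mem_univ, if_true]
  · simp [h]

end Pool.Agent.Work.MP_542d22_co.S
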