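import Pool.Agent.Work.MP_542d22_co.S.Defs

set_option autoImplicit false
set_option linter.unusedSectionVars false

namespace Pool.Agent.Work.MP_542d22_co.S

open Finset

variable {V E : Type} [Fintype V] [DecidableEq V] [Fintype E] [DecidableEq E]

private lemma mat_update (tail head : E → V) (q : E → ℝ) (v0 : V) (e : E) (t : ℝ) :
    Mat tail head (Function.update q e (q e + t)) v0 =
      Mat tail head q v0 + Matrix.replicateCol Unit (fun y => if tail e = y then (1 : ℝ) else 0) *
        Matrix.replicateRow Unit (fun z => t * ((if z = tail e then 1 else 0) -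
          (if z = head e then 1 else 0))) := by
  ext y z
  simp only [Mat, Matrix.of_apply, Matrix.add_apply, Matrix.mul_apply, Matrix.replicateCol_apply,
    Matrix.replicateRow_apply, Finset.univ_unique, Finset.sum_singleton]
  rw [add_assoc]
  congr 1
  rw [← Finset.add_sum_erase univ _ (mem_univ e), ← Finset.add_sum_erase univ (fun e' => if tail e' = y then q e' *
      ((if z = y then (1 : ℝ) else 0) - (if z = head e' then 1 else 0)) else 0) (mem_univ e)]
  have h1 : ∑ x ∈ univ.erase e, (if tail x = y then Function.update q e (q e + t) x *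
      ((if z = y then (1 : ℝ) else 0) - if z = head x then 1 else 0) else 0) =
      ∑ x ∈ univ.erase e, (if tail x = y then q x *
      ((if z = y then (1 : ℝ) else 0) - if z = head x then 1 else 0) else 0) := by
    refine Finset.sum_congr rfl fun x hx => ?_
    rw [Function.update_of_ne (Finset.ne_of_mem_erase hx)]
  rw [h1, Function.update_self]
  by_cases h : tail e = y
  · subst h
    simp only [if_true]
    ring
  · simp [h]

theorem det_update (tail head : E → V) (q : E → ℝ) (v0 : V) (e : E) (t : ℝ)
    (h : (Mat tail head q v0).det ≠ 0) :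
    (Mat tail head (Function.update q e (q e + t)) v0).det =
      (Mat tail head q v0).det * (1 + t * Dm tail head q v0 (head e) (tail e)) := by
  rw [mat_update, Matrix.det_add_replicateCol_mul_replicateRow (isUnit_iff_ne_zero.2 h)]
  congr 1
  rw [Matrix.det_unique]
  simp only [Matrix.add_apply, Matrix.one_apply_eq, Matrix.mul_apply, Matrix.replicateRow_apply,
    Matrix.replicateCol_apply, mul_ite, mul_one, mul_zero, Finset.sum_ite_eq, mem_univ, if_true]
  congr 1
  unfold Dm
  simp only [mul_assoc, sub_mul, ite_mul, one_mul, zero_mul, mul_sub, Finset.sum_sub_distrib,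
      mul_ite, mul_zero, Finset.sum_ite_eq', Finset.mem_univ, if_true]

theorem det_root (tail head : E → V) (q : E → ℝ) (v0 v1 : V) :
    (Mat tail head q v1).det = (Mat tail head q v0).det := by
  have h1 : Mat tail head q v1 = Mat tail head q v0 *
      (1 + Matrix.replicateCol Unit (fun _ : V => (1 : ℝ)) *
        Matrix.replicateRow Unit (fun z => (if z = v1 then (1 : ℝ) else 0) - (if z = v0 then 1 else 0))) := by
    rw [Matrix.mul_add, Matrix.mul_one, ← Matrix.mul_assoc]
    have h2 : Mat tail head q v0 * Matrix.replicateCol Unit (fun _ : V => (1 : ℝ)) =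
        Matrix.replicateCol Unit (fun _ : V => (1 : ℝ)) := by
      ext y _
      have h3 := mulVec_Mat tail head q v0 (fun _ => (1 : ℝ)) y
      have h4 : Lap tail head q (fun _ => (1 : ℝ)) y = 0 := by simp [Lap]
      rw [h4, add_zero] at h3
      simp only [Matrix.mul_apply, Matrix.replicateCol_apply]
      exact h3
    rw [h2]
    ext y z
    simp only [Mat, Matrix.of_apply, Matrix.add_apply, Matrix.mul_apply, Matrix.replicateCol_apply,
      Matrix.replicateRow_apply, Finset.univ_unique, Finset.sum_singleton]
    ring
  rw [h1, Matrix.det_mul, Matrix.det_one_add_replicateCol_mul_replicateRow]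
  simp [dotProduct]

end Pool.Agent.Work.MP_542d22_co.S
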