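import Pool.Agent.Work.MP_542d22_co.S.Defs

/-!
MODULE Dirich (S-M). Minimum principle and Dirichlet problem for irreducible rates.
(1) `minp`: if `f < 0` somewhere let `m = min f < 0`, `S = {f = m}`, disjoint from `A`. For `y ∈ S` all terms `q e (m - f (head e))` of `Lap f y >= 0` are <= 0,
 so they vanish: `S` is closed and nonempty, `S = univ`, contradiction with `A` nonempty.
(2) `dirichlet`: the linear map `f ↦ (y ↦ if y ∈ A then f y else Lap f y)` on `V → ℝ` is injective by (1) applied to `f` and `-f`,
 so surjective (`LinearMap.injective_iff_surjective`).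
-/

set_option autoImplicit false
set_option linter.unusedSectionVars false

namespace Pool.Agent.Work.MP_542d22_co.S

open Finset

variable {V E : Type} [Fintype V] [DecidableEq V] [Fintype E] [DecidableEq E]

theorem minp (tail head : E → V) (q : E → ℝ) (hq : ∀ e, 0 < q e)
    (hirr : ∀ S : Finset V, S.Nonempty → Closed tail head q S → S = univ)
    (A : Finset V) (hA : A.Nonempty) (f : V → ℝ) (h1 : ∀ y ∈ A, 0 ≤ f y)
    (h2 : ∀ y, y ∉ A → 0 ≤ Lap tail head q f y) : ∀ y, 0 ≤ f y := by
  intro y0
  by_contra hneg
  rw [not_le] at hneg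
  obtain ⟨m, _, hm⟩ := Finset.exists_min_image univ f ⟨y0, mem_univ _⟩
  have hm0 : f m < 0 := lt_of_le_of_lt (hm y0 (mem_univ _)) hneg
  have hS : (univ.filter fun y => f y = f m) = univ := by
    apply hirr _ ⟨m, by simp⟩
    intro e _ he
    simp only [mem_filter, mem_univ, true_and] at he ⊢
    have hA' : tail e ∉ A := fun h => by
      have := h1 _ h
      linarith
    have h3 := h2 _ hA'
    unfold Lap at h3
    have h4 : ∀ e' ∈ (univ : Finset E),
        (if tail e' = tail e then q e' * (f (tail e) - f (head e')) else 0) ≤ 0 := by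
      intro e' _
      split_ifs
      · have h6 := hm (head e') (mem_univ _)
        have h7 := hq e'
        exact mul_nonpos_of_nonneg_of_nonpos h7.le (by linarith)
      · exact le_rfl
    have h5 := (Finset.sum_eq_zero_iff_of_nonpos h4).1
      (le_antisymm (Finset.sum_nonpos h4) h3) e (mem_univ _)
    rw [if_pos rfl] at h5
    rcases mul_eq_zero.1 h5 with h6 | h6
    · exact absurd h6 (hq e).ne'
    · linarith
  obtain ⟨a, ha⟩ := hA
  have h8 : a ∈ (univ.filter fun y => f y = f m) := by
    rw [hS]
    exact mem_univ _
  have h9 := (mem_filter.1 h8).2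
  have h10 := h1 a ha
  linarith

private theorem lap_add (tail head : E → V) (q : E → ℝ) (f g : V → ℝ) (y : V) :
    Lap tail head q (f + g) y = Lap tail head q f y + Lap tail head q g y := by
  unfold Lap
  rw [← Finset.sum_add_distrib]
  refine Finset.sum_congr rfl fun e _ => ?_
  split_ifs
  · simp only [Pi.add_apply]
    ring
  · simp

private theorem lap_smul (tail head : E → V) (q : E → ℝ) (c : ℝ) (f : V → ℝ) (y : V) :
    Lap tail head q (c • f) y = c * Lap tail head q f y := by
  unfold Lap
  rw [Finset.mul_sum]
  refine Finset.sum_congr rfl fun e _ => ?_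
  split_ifs
  · simp only [Pi.smul_apply, smul_eq_mul]
    ring
  · simp

private theorem lap_neg (tail head : E → V) (q : E → ℝ) (f : V → ℝ) (y : V) :
    Lap tail head q (-f) y = - Lap tail head q f y := by
  have := lap_smul tail head q (-1) f y
  rw [neg_one_smul] at this
  rw [this]
  ring

private def dlin (tail head : E → V) (q : E → ℝ) (A : Finset V) : (V → ℝ) →ₗ[ℝ] (V → ℝ) where
  toFun f y := if y ∈ A then f y else Lap tail head q f y
  map_add' f g := by
    funext y
    by_cases h : y ∈ A
    · simp [h]
    · simp [h, lap_add]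
  map_smul' c f := by
    funext y
    by_cases h : y ∈ A
    · simp [h]
    · simp [h, lap_smul]

theorem dirichlet (tail head : E → V) (q : E → ℝ) (hq : ∀ e, 0 < q e)
    (hirr : ∀ S : Finset V, S.Nonempty → Closed tail head q S → S = univ)
    (A : Finset V) (hA : A.Nonempty) (b : V → ℝ) :
    ∃ f : V → ℝ, (∀ y ∈ A, f y = b y) ∧ ∀ y, y ∉ A → Lap tail head q f y = 0 := by
  have hinj : Function.Injective (dlin tail head q A) := by
    rw [← LinearMap.ker_eq_bot, LinearMap.ker_eq_bot']
    intro f hf
    have hf1 : ∀ y ∈ A, f y = 0 := by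
      intro y hy
      have := congrFun hf y
      simpa [dlin, hy] using this
    have hf2 : ∀ y, y ∉ A → Lap tail head q f y = 0 := by
      intro y hy
      have := congrFun hf y
      simpa [dlin, hy] using this
    have h3 := minp tail head q hq hirr A hA f (fun y hy => (hf1 y hy).ge)
      (fun y hy => (hf2 y hy).ge)
    have h4 := minp tail head q hq hirr A hA (-f) (fun y hy => by simp [hf1 y hy])
      (fun y hy => by rw [lap_neg, hf2 y hy]; simp)
    funext y
    have h5 := h3 y
    have h6 := h4 y
    simp only [Pi.neg_apply] at h6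
    simp only [Pi.zero_apply]
    linarith
  have hsurj := LinearMap.injective_iff_surjective.1 hinj
  obtain ⟨f, hf⟩ := hsurj (fun y => if y ∈ A then b y else 0)
  refine ⟨f, ?_, ?_⟩
  · intro y hy
    have := congrFun hf y
    simpa [dlin, hy] using this
  · intro y hy
    have := congrFun hf y
    simpa [dlin, hy] using this

end Pool.Agent.Work.MP_542d22_co.S
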