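import Mathlib

/-!
MODULE Edmonds (L). Edmonds' disjoint branching theorem (in-arborescences with root `none` = infinity), proof of Lovász.
`out F S` = number of arcs of `F` with tail in `S` and head not in `S` (head `none` is never in `S`); it is submodular in `S`.
Claim by induction on `k`, for a finite set `A` of available arcs with `out A S >= k` for all nonempty `S`: there are `k` disjoint arborescences inside `A`.
Step: grow a partial arborescence `G ⊆ A` covering a vertex set `U` (each vertex of `U` is the tail of exactly one arc of `G`, no arc of `G` has its tail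
outside `U`, heads in `U` or `none`, a depth function decreases), with the invariant (I): `out (A \ G) S >= k - 1` for all nonempty `S`. Start: `G = ∅, U = ∅`.
If `U ≠ univ` an arc can be added: let `R = univ \ U` (nonempty).  `out (A \ G) S = out A S` for `S ⊆ R` (arcs of `G` have their tail in `U`), so `>= k`.
Call `S` tight if `S` is nonempty and `out (A \ G) S = k - 1`. An arc `e ∈ A \ G` with tail `x ∉ U` and head in `U ∪ {none}` may be added if no tight `S` has `x ∈ S`,
`head e ∉ S`. (i) If no tight set meets `R`: take any arc leaving `R` (exists: `out >= k >= 1`).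
(ii) Otherwise take a tight `S` meeting `R` with minimal cardinality. `S ∩ R` is nonempty, `out (A \ G) (S ∩ R) >= k > k - 1 = out (A \ G) S`, so some arc `e ∈ A \ G`
 has tail in `S ∩ R`, head not in `S ∩ R`, and does not leave `S`: so `head e ∈ S \ R ⊆ U`. If a tight `S'` had `tail e ∈ S'`, `head e ∉ S'`, then `S ∩ S'` is nonempty, submodularity gives
 `out (S ∩ S') + out (S ∪ S') <= 2(k-1)`, both `>= k-1`, so `S ∩ S'` is tight, meets `R` (in `tail e`) and is smaller than `S` (`head e ∈ S \ S'`). Contradiction.
Adding `e` to `G`, `tail e` to `U` keeps (I): out decreases by one only for `S` with `tail e ∈ S, head e ∉ S`, which are not tight. Depth of `tail e` := 1 + depth of the head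
(or 0 if the head is `none`). When `U = univ`, `G` is one arborescence and `A \ G` satisfies the hypothesis for `k - 1`.
-/

set_option autoImplicit false
set_option linter.unusedSectionVars false

namespace Pool.Agent.Work.MP_542d22_co.S

open Finset

section

variable {V E : Type} [Fintype V] [DecidableEq V] [Fintype E] [DecidableEq E]
  (tail : E → V) (head : E → Option V)

/-- the arcs of `F` which leave `S` -/
private def lv (F : Finset E) (S : Finset V) : Finset E :=
  F.filter (fun e => tail e ∈ S ∧ ∀ v ∈ S, head e ≠ some v)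

private theorem mem_lv {F : Finset E} {S : Finset V} {e : E} :
    e ∈ lv tail head F S ↔ e ∈ F ∧ tail e ∈ S ∧ ∀ v ∈ S, head e ≠ some v := by
  rw [lv, mem_filter]

private theorem submod (F : Finset E) (S T : Finset V) :
    (lv tail head F (S ∩ T)).card + (lv tail head F (S ∪ T)).card ≤
      (lv tail head F S).card + (lv tail head F T).card := by
  rw [← card_union_add_card_inter, ← card_union_add_card_inter (lv tail head F S)]
  apply Nat.add_le_add
  · apply card_le_card
    intro e he
    rw [mem_union, mem_lv, mem_lv] at he ⊢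
    rcases he with ⟨h1, h2, h3⟩ | ⟨h1, h2, h3⟩
    · rw [mem_inter] at h2
      by_cases h4 : ∀ v ∈ S, head e ≠ some v
      · exact Or.inl ⟨h1, h2.1, h4⟩
      · right
        refine ⟨h1, h2.2, fun v hv hev => ?_⟩
        push Not at h4
        obtain ⟨w, hw, hew⟩ := h4
        rw [hev] at hew
        have hvw : v = w := Option.some.inj hew
        subst hvw
        exact h3 v (mem_inter.2 ⟨hw, hv⟩) hev
    · rw [mem_union] at h2
      rcases h2 with h2 | h2
      · exact Or.inl ⟨h1, h2, fun v hv => h3 v (mem_union_left _ hv)⟩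
      · exact Or.inr ⟨h1, h2, fun v hv => h3 v (mem_union_right _ hv)⟩
  · apply card_le_card
    intro e he
    rw [mem_inter, mem_lv, mem_lv] at he ⊢
    obtain ⟨⟨h1, h2, -⟩, -, -, h3⟩ := he
    rw [mem_inter] at h2
    exact ⟨⟨h1, h2.1, fun v hv => h3 v (mem_union_left _ hv)⟩,
      h1, h2.2, fun v hv => h3 v (mem_union_right _ hv)⟩

/-- partial arborescences -/
private structure St (A : Finset E) (k : ℕ) (G : Finset E) (U : Finset V) : Prop where
  sub : G ⊆ A
  cov : ∀ v ∈ U, ∃ e ∈ G, tail e = v
  tl : ∀ e ∈ G, tail e ∈ U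
  hd : ∀ e ∈ G, ∀ w, head e = some w → w ∈ U
  inj : ∀ e ∈ G, ∀ e' ∈ G, tail e = tail e' → e = e'
  dep : ∃ d : V → ℕ, ∀ e ∈ G, ∀ v, head e = some v → d v < d (tail e)
  inv : ∀ S : Finset V, S.Nonempty → k ≤ (lv tail head (A \ G) S).card

variable {tail head}

private theorem exists_arc {A : Finset E} {k : ℕ} {G : Finset E} {U : Finset V}
    (hA : ∀ S : Finset V, S.Nonempty → k + 1 ≤ (lv tail head A S).card)
    (h : St tail head A k G U) (hU : U ≠ univ) :
    ∃ e ∈ A \ G, tail e ∉ U ∧ (∀ w, head e = some w → w ∈ U) ∧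
      ∀ S : Finset V, tail e ∈ S → (∀ v ∈ S, head e ≠ some v) →
        k + 1 ≤ (lv tail head (A \ G) S).card := by
  have hR : (univ \ U).Nonempty := by
    rw [nonempty_iff_ne_empty]
    intro h0
    apply hU
    rw [sdiff_eq_empty_iff_subset] at h0
    exact (subset_univ U).antisymm h0
  -- sets outside `U`
  have hout : ∀ S : Finset V, S.Nonempty → Disjoint S U →
      k + 1 ≤ (lv tail head (A \ G) S).card := by
    intro S hS hd
    refine (hA S hS).trans (card_le_card ?_)
    intro e he
    rw [mem_lv] at he ⊢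
    refine ⟨mem_sdiff.2 ⟨he.1, fun heG => ?_⟩, he.2⟩
    exact (disjoint_left.1 hd he.2.1) (h.tl e heG)
  by_cases ht : ∃ S : Finset V, (lv tail head (A \ G) S).card ≤ k ∧ (S ∩ (univ \ U)).Nonempty
  · -- a tight set meets `R`
    classical
    obtain ⟨S0, hS0⟩ := ht
    obtain ⟨S, hS, hmin⟩ := exists_min_image
      (univ.filter fun S : Finset V => (lv tail head (A \ G) S).card ≤ k ∧
        (S ∩ (univ \ U)).Nonempty) (fun S => S.card) ⟨S0, mem_filter.2 ⟨mem_univ _, hS0⟩⟩
    rw [mem_filter] at hS
    obtain ⟨-, hSk, hSR⟩ := hS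
    have h1 := hout (S ∩ (univ \ U)) hSR
      (disjoint_left.2 fun x hx => (mem_sdiff.1 (mem_inter.1 hx).2).2)
    have h2 : ¬ lv tail head (A \ G) (S ∩ (univ \ U)) ⊆ lv tail head (A \ G) S := by
      intro hsub
      have := card_le_card hsub
      omega
    rw [not_subset] at h2
    obtain ⟨e, he, heS⟩ := h2
    rw [mem_lv] at he heS
    obtain ⟨heA, het, heh⟩ := he
    rw [mem_inter] at het
    have h3 : ∃ v ∈ S, head e = some v := by
      by_contra hcon
      push Not at hcon
      exact heS ⟨heA, het.1, hcon⟩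
    obtain ⟨v, hvS, hev⟩ := h3
    have hvU : v ∈ U := by
      by_contra hvU
      exact heh v (mem_inter.2 ⟨hvS, mem_sdiff.2 ⟨mem_univ _, hvU⟩⟩) hev
    refine ⟨e, heA, (mem_sdiff.1 het.2).2, fun w hw => ?_, fun T hT hTh => ?_⟩
    · rw [hev] at hw
      rw [← Option.some.inj hw]
      exact hvU
    · by_contra hlt
      have h4 := submod tail head (A \ G) S T
      have h5 : (S ∪ T).Nonempty := ⟨tail e, mem_union_left _ het.1⟩
      have h6 := h.inv _ h5
      have h7 : (lv tail head (A \ G) (S ∩ T)).card ≤ k := by omega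
      have h8 := hmin (S ∩ T) (mem_filter.2 ⟨mem_univ _, h7, ⟨tail e,
        mem_inter.2 ⟨mem_inter.2 ⟨het.1, hT⟩, het.2⟩⟩⟩)
      have h9 : (S ∩ T).card < S.card := by
        apply card_lt_card
        refine ⟨inter_subset_left, fun hsub => ?_⟩
        exact hTh v (mem_inter.1 (hsub hvS)).2 hev
      omega
  · push Not at ht
    obtain ⟨e, he⟩ := card_pos.1 (lt_of_lt_of_le (Nat.succ_pos k)
      (hout _ hR (disjoint_left.2 fun x hx => (mem_sdiff.1 hx).2)))
    rw [mem_lv] at he
    refine ⟨e, he.1, (mem_sdiff.1 he.2.1).2, fun w hw => ?_, fun S hS _ => ?_⟩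
    · by_contra hwU
      exact he.2.2 w (mem_sdiff.2 ⟨mem_univ _, hwU⟩) hw
    · by_contra hlt
      have h1 := ht S (by omega)
      have h2 : tail e ∈ S ∩ (univ \ U) := mem_inter.2 ⟨hS, he.2.1⟩
      rw [h1] at h2
      exact notMem_empty _ h2

private theorem grow {A : Finset E} {k : ℕ} {G : Finset E} {U : Finset V}
    (hA : ∀ S : Finset V, S.Nonempty → k + 1 ≤ (lv tail head A S).card)
    (h : St tail head A k G U) (hU : U ≠ univ) :
    ∃ G' U', St tail head A k G' U' ∧ U.card < U'.card := by
  obtain ⟨e, he, heU, heh, hI⟩ := exists_arc hA h hU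
  have heG : e ∉ G := (mem_sdiff.1 he).2
  refine ⟨insert e G, insert (tail e) U, ⟨?_, ?_, ?_, ?_, ?_, ?_, ?_⟩, ?_⟩
  · intro x hx
    rcases mem_insert.1 hx with rfl | hx
    · exact (mem_sdiff.1 he).1
    · exact h.sub hx
  · intro v hv
    rcases mem_insert.1 hv with rfl | hv
    · exact ⟨e, mem_insert_self _ _, rfl⟩
    · obtain ⟨x, hx, hxv⟩ := h.cov v hv
      exact ⟨x, mem_insert_of_mem hx, hxv⟩
  · intro x hx
    rcases mem_insert.1 hx with rfl | hx
    · exact mem_insert_self _ _
    · exact mem_insert_of_mem (h.tl x hx)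
  · intro x hx w hw
    rcases mem_insert.1 hx with rfl | hx
    · exact mem_insert_of_mem (heh w hw)
    · exact mem_insert_of_mem (h.hd x hx w hw)
  · intro x hx y hy hxy
    rcases mem_insert.1 hx with hx1 | hx1 <;> rcases mem_insert.1 hy with hy1 | hy1
    · rw [hx1, hy1]
    · exact absurd (hx1 ▸ hxy ▸ h.tl y hy1) heU
    · exact absurd (hy1 ▸ hxy ▸ h.tl x hx1) heU
    · exact h.inj x hx1 y hy1 hxy
  · obtain ⟨d, hd⟩ := h.dep
    refine ⟨Function.update d (tail e) (match head e with | none => 0 | some w => d w + 1), ?_⟩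
    intro x hx v hv
    rcases mem_insert.1 hx with rfl | hx
    · have hvU : v ∈ U := heh v hv
      have hne : v ≠ tail x := fun hh => heU (hh ▸ hvU)
      rw [Function.update_self, Function.update_of_ne hne, hv]
      exact Nat.lt_succ_self _
    · have hvU : v ∈ U := h.hd x hx v hv
      have hne : v ≠ tail e := fun hh => heU (hh ▸ hvU)
      have hne' : tail x ≠ tail e := fun hh => heU (hh ▸ h.tl x hx)
      rw [Function.update_of_ne hne, Function.update_of_ne hne']
      exact hd x hx v hv
  · intro S hS
    have hset : A \ insert e G = (A \ G).erase e := by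
      ext x
      simp only [mem_sdiff, mem_insert, mem_erase]
      tauto
    by_cases hl : tail e ∈ S ∧ ∀ v ∈ S, head e ≠ some v
    · have h1 := hI S hl.1 hl.2
      have h2 : lv tail head (A \ insert e G) S = (lv tail head (A \ G) S).erase e := by
        rw [hset]
        ext x
        simp only [mem_lv, mem_erase]
        tauto
      rw [h2, card_erase_of_mem (by rw [mem_lv]; exact ⟨he, hl⟩)]
      omega
    · have h2 : lv tail head (A \ insert e G) S = lv tail head (A \ G) S := by
        rw [hset]
        ext x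
        simp only [mem_lv, mem_erase]
        constructor
        · rintro ⟨⟨_, h1⟩, h2⟩
          exact ⟨h1, h2⟩
        · rintro ⟨h1, h2⟩
          exact ⟨⟨fun hx => hl (hx ▸ h2), h1⟩, h2⟩
      rw [h2]
      exact h.inv S hS
  · rw [card_insert_of_notMem heU]
    exact Nat.lt_succ_self _

private theorem exists_arb {A : Finset E} {k : ℕ}
    (hA : ∀ S : Finset V, S.Nonempty → k + 1 ≤ (lv tail head A S).card) :
    ∃ G, St tail head A k G univ := by
  have key : ∀ n : ℕ, ∀ G U, St tail head A k G U → (univ : Finset V).card - U.card ≤ n →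
      ∃ G, St tail head A k G univ := by
    intro n
    induction n with
    | zero =>
      intro G U h hn
      have hU : U = univ := by
        apply eq_of_subset_of_card_le (subset_univ U)
        omega
      rw [hU] at h
      exact ⟨G, h⟩
    | succ n ih =>
      intro G U h hn
      by_cases hU : U = univ
      · rw [hU] at h
        exact ⟨G, h⟩
      · obtain ⟨G', U', h', hlt⟩ := grow hA h hU
        have := card_le_card (subset_univ U')
        exact ih G' U' h' (by omega)
  refine key _ ∅ ∅ ⟨empty_subset _, ?_, ?_, ?_, ?_, ⟨fun _ => 0, ?_⟩, ?_⟩ le_rfl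
  · intro v hv
    exact absurd hv (notMem_empty v)
  · intro e he
    exact absurd he (notMem_empty e)
  · intro e he
    exact absurd he (notMem_empty e)
  · intro e he
    exact absurd he (notMem_empty e)
  · intro e he
    exact absurd he (notMem_empty e)
  · intro S hS
    rw [sdiff_empty]
    exact (Nat.le_succ k).trans (hA S hS)

private theorem packing (k : ℕ) : ∀ A : Finset E,
    (∀ S : Finset V, S.Nonempty → k ≤ (lv tail head A S).card) →
    ∃ F : Fin k → Finset E, (∀ i, F i ⊆ A) ∧ (∀ i j, i ≠ j → Disjoint (F i) (F j)) ∧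
      ∀ i, (∀ v, ∃ e ∈ F i, tail e = v) ∧ (∀ e ∈ F i, ∀ e' ∈ F i, tail e = tail e' → e = e') ∧
        ∃ d : V → ℕ, ∀ e ∈ F i, ∀ v, head e = some v → d v < d (tail e) := by
  induction k with
  | zero =>
    intro A _
    exact ⟨fun i => i.elim0, fun i => i.elim0, fun i => i.elim0, fun i => i.elim0⟩
  | succ k ih =>
    intro A hA
    obtain ⟨G, hG⟩ := exists_arb hA
    obtain ⟨F, hF1, hF2, hF3⟩ := ih (A \ G) hG.inv
    have hdis : ∀ i, Disjoint G (F i) := fun i =>
      disjoint_left.2 fun e he he' => (mem_sdiff.1 (hF1 i he')).2 he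
    refine ⟨Fin.cons G F, ?_, ?_, ?_⟩
    · intro i
      refine Fin.cases ?_ (fun i => ?_) i
      · rw [Fin.cons_zero]
        exact hG.sub
      · rw [Fin.cons_succ]
        exact (hF1 i).trans sdiff_subset
    · intro i j
      refine Fin.cases ?_ (fun i => ?_) i <;> refine Fin.cases ?_ (fun j => ?_) j
      · intro h
        exact absurd rfl h
      · intro _
        rw [Fin.cons_zero, Fin.cons_succ]
        exact hdis j
      · intro _
        rw [Fin.cons_zero, Fin.cons_succ]
        exact (hdis i).symm
      · intro h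
        rw [Fin.cons_succ, Fin.cons_succ]
        exact hF2 i j fun hij => h (by rw [hij])
    · intro i
      refine Fin.cases ?_ (fun i => ?_) i
      · rw [Fin.cons_zero]
        exact ⟨fun v => hG.cov v (mem_univ v), hG.inj, hG.dep⟩
      · rw [Fin.cons_succ]
        exact hF3 i

end

theorem edmonds {V E : Type} [Fintype V] [DecidableEq V] [Fintype E] [DecidableEq E]
    (tail : E → V) (head : E → Option V) (k : ℕ)
    (h : ∀ S : Finset V, S.Nonempty →
      k ≤ (univ.filter fun e => tail e ∈ S ∧ ∀ v ∈ S, head e ≠ some v).card) :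
    ∃ F : Fin k → Finset E, (∀ i j, i ≠ j → Disjoint (F i) (F j)) ∧
      ∀ i, (∀ v, ∃ e ∈ F i, tail e = v) ∧ (∀ e ∈ F i, ∀ e' ∈ F i, tail e = tail e' → e = e') ∧
        ∃ d : V → ℕ, ∀ e ∈ F i, ∀ v, head e = some v → d v < d (tail e) := by
  obtain ⟨F, -, hF⟩ := packing (tail := tail) (head := head) k univ h
  exact ⟨F, hF⟩

end Pool.Agent.Work.MP_542d22_co.S
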