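import Pool.Agent.Work.MP_542d22_co.S.Core
import Pool.Agent.Work.MP_542d22_co.Menger

/-!
MODULE Final (M). Reduction to the minimal set.
(1) choose `A : Finset E` with exactly `r` arcs of tail `v` for every `v` (`Finset.exists_subset_card_eq` for each `v`, union).
(2) `B` : nonempty Finset V of minimal cardinality with `#{e ∈ A : tail e ∈ B, head e ∉ B} < r` (`univ` qualifies since `0 < r`).
 For nonempty `S ⊆ B`, `S ≠ B`: `r <= #{e ∈ A : tail e ∈ S, head e ∉ S}`. `B` has at least two elements (no loops: a singleton has `r` leaving arcs).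
(3) Apply `core` to `V' = ↥B`, `E' = {e // e ∈ A ∧ tail e ∈ B ∧ head e ∈ B}`, `δ v = #{e ∈ A : tail e = v, head e ∉ B}`.
(4) For `X : Finset V` with `tail e ∈ X, head e ∉ X` use the trace of `X` on `B`; cuts in `E'` inject into cuts in `E`, and `μ` in `E'` is at most `μ` in `E`.
(5) `menger` with `r + 1 - μ`.
-/

set_option autoImplicit false
set_option linter.unusedSectionVars false

namespace Pool.Agent.Work.MP_542d22_co.S

open Finset Classical

theorem final {V E : Type} [Fintype V] [Fintype E] [Nonempty V] (tail head : E → V) (r : ℕ)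
    (hr : 1 ≤ r) (hloop : ∀ e, tail e ≠ head e)
    (hdeg : ∀ v, r ≤ (univ.filter fun e => tail e = v).card) :
    ∃ e : E, Pool.Agent.Work.MP_542d22_co.Joined tail head
      (r + 1 - (univ.filter fun e' => tail e' = tail e ∧ head e' = head e).card) (tail e) (head e) := by
  have hch : ∀ v, ∃ t : Finset E, t ⊆ (univ.filter fun e => tail e = v) ∧ t.card = r :=
    fun v => Finset.exists_subset_card_eq (hdeg v)
  choose Av hAv hAc using hch
  obtain ⟨A, hA⟩ : ∃ A : Finset E, A = univ.filter fun e => e ∈ Av (tail e) := ⟨_, rfl⟩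
  have hAt : ∀ v, (A.filter fun e => tail e = v) = Av v := by
    intro v
    ext e
    rw [mem_filter, hA, mem_filter]
    constructor
    · rintro ⟨⟨_, h1⟩, h2⟩
      rwa [h2] at h1
    · intro h1
      have h2 := (mem_filter.1 (hAv v h1)).2
      exact ⟨⟨mem_univ _, by rwa [h2]⟩, h2⟩
  let c : Finset V → ℕ := fun B => (A.filter fun e => tail e ∈ B ∧ head e ∉ B).card
  have huniv : c univ < r := by
    have h1 : (A.filter fun e => tail e ∈ (univ : Finset V) ∧ head e ∉ (univ : Finset V)) = ∅ := by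
      ext e
      simp
    show (A.filter fun e => tail e ∈ (univ : Finset V) ∧ head e ∉ (univ : Finset V)).card < r
    rw [h1, card_empty]
    omega
  obtain ⟨B, hB, hmin⟩ := Finset.exists_min_image
    ((univ : Finset (Finset V)).filter fun B => B.Nonempty ∧ c B < r) (fun B => B.card)
    ⟨univ, mem_filter.2 ⟨mem_univ _, univ_nonempty, huniv⟩⟩
  obtain ⟨_, hBne, hBc⟩ := mem_filter.1 hB
  have hsub : ∀ S : Finset V, S.Nonempty → S ⊆ B → S ≠ B → r ≤ c S := by
    intro S hS hSB hne
    by_contra hlt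
    have h1 := hmin S (mem_filter.2 ⟨mem_univ _, hS, by omega⟩)
    have h2 := Finset.card_lt_card (Finset.ssubset_iff_subset_ne.2 ⟨hSB, hne⟩)
    omega
  have hnt : Nontrivial (↥B) := by
    have h1 : 1 < B.card := by
      by_contra hlt
      have h2 : B.card = 1 := by
        have := hBne.card_pos
        omega
      obtain ⟨v, rfl⟩ := Finset.card_eq_one.1 h2
      have h3 : (A.filter fun e => tail e ∈ ({v} : Finset V) ∧ head e ∉ ({v} : Finset V)) = Av v := by
        rw [← hAt v]
        ext e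
        rw [mem_filter, mem_filter, mem_singleton, mem_singleton]
        constructor
        · rintro ⟨h4, h5, _⟩
          exact ⟨h4, h5⟩
        · rintro ⟨h4, h5⟩
          exact ⟨h4, h5, fun h6 => hloop e (h5.trans h6.symm)⟩
      have h4 : c {v} = r := by
        show (A.filter fun e => tail e ∈ ({v} : Finset V) ∧ head e ∉ ({v} : Finset V)).card = r
        rw [h3, hAc]
      omega
    obtain ⟨a, ha, b, hb, hab⟩ := Finset.one_lt_card.1 h1
    exact ⟨⟨⟨a, ha⟩, ⟨b, hb⟩, fun h => hab (congrArg Subtype.val h)⟩⟩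
  let E' : Type := {e : E // e ∈ A ∧ tail e ∈ B ∧ head e ∈ B}
  let tail' : E' → ↥B := fun e => ⟨tail e.1, e.2.2.1⟩
  let head' : E' → ↥B := fun e => ⟨head e.1, e.2.2.2⟩
  let δ₀ : V → ℕ := fun v => (A.filter fun e => tail e = v ∧ head e ∉ B).card
  have hδ : ∀ T : Finset V, (A.filter fun e => tail e ∈ T ∧ head e ∉ B).card = ∑ v ∈ T, δ₀ v := by
    intro T
    rw [Finset.card_eq_sum_card_fiberwise (f := tail) (t := T)]
    · refine Finset.sum_congr rfl fun v hv => ?_
      show _ = (A.filter fun e => tail e = v ∧ head e ∉ B).card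
      congr 1
      ext e
      rw [mem_filter, mem_filter, mem_filter]
      constructor
      · rintro ⟨⟨h1, _, h2⟩, h3⟩
        exact ⟨h1, h3, h2⟩
      · rintro ⟨h1, h3, h2⟩
        exact ⟨⟨h1, by rwa [h3], h2⟩, h3⟩
    · intro e he
      exact (mem_filter.1 (mem_coe.1 he)).2.1
  have hsum : ∑ v : ↥B, δ₀ v.1 < r := by
    rw [Finset.sum_coe_sort B δ₀, ← hδ B]
    exact hBc
  have hcut : ∀ S : Finset (↥B), S.Nonempty → S ≠ univ →
      r ≤ (univ.filter fun e : E' => tail' e ∈ S ∧ head' e ∉ S).card + ∑ v ∈ S, δ₀ v.1 := by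
    intro S hS hne
    set T : Finset V := S.map (Function.Embedding.subtype _) with hT
    have hmemT : ∀ v : ↥B, v.1 ∈ T ↔ v ∈ S := by
      intro v
      rw [hT, mem_map]
      constructor
      · rintro ⟨w, hw, hwv⟩
        have : w = v := Subtype.ext hwv
        rwa [← this]
      · intro hv
        exact ⟨v, hv, rfl⟩
    have hTB : T ⊆ B := by
      intro v hv
      rw [hT, mem_map] at hv
      obtain ⟨w, _, rfl⟩ := hv
      exact w.2
    have hTne : T ≠ B := by
      intro h1
      refine hne (Finset.eq_univ_iff_forall.2 fun v => ?_)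
      rw [← hmemT, h1]
      exact v.2
    have h1 := hsub T (by rw [hT]; exact hS.map) hTB hTne
    refine h1.trans ?_
    have h2 : ∑ v ∈ S, δ₀ v.1 = ∑ v ∈ T, δ₀ v := by
      rw [hT, Finset.sum_map]
      rfl
    rw [h2, ← hδ T]
    have h3 : (A.filter fun e => tail e ∈ T ∧ head e ∉ T) ⊆
        ((univ.filter fun e : E' => tail' e ∈ S ∧ head' e ∉ S).map
          (Function.Embedding.subtype _)) ∪ (A.filter fun e => tail e ∈ T ∧ head e ∉ B) := by
      intro e he
      obtain ⟨h4, h5, h6⟩ := mem_filter.1 he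
      rw [mem_union]
      by_cases h7 : head e ∈ B
      · left
        rw [mem_map]
        refine ⟨⟨e, h4, hTB h5, h7⟩, mem_filter.2 ⟨mem_univ _, ?_, ?_⟩, rfl⟩
        · exact (hmemT ⟨tail e, hTB h5⟩).1 h5
        · exact fun h8 => h6 ((hmemT ⟨head e, h7⟩).2 h8)
      · right
        exact mem_filter.2 ⟨h4, h5, h7⟩
    refine (card_le_card h3).trans ((card_union_le _ _).trans ?_)
    rw [card_map]
  obtain ⟨e, _, hX⟩ := core tail' head' r (fun v => δ₀ v.1) hsum hcut
  refine ⟨e.1, ?_⟩
  refine Pool.Agent.Work.MP_542d22_co.menger tail head _ (tail e.1) (head e.1) (hloop e.1) ?_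
  intro Y hy hy'
  have h1 := hX (univ.filter fun v : ↥B => v.1 ∈ Y) (mem_filter.2 ⟨mem_univ _, hy⟩)
    (fun h => hy' (mem_filter.1 h).2)
  have h2 : (univ.filter fun e' : E' => tail' e' ∈ (univ.filter fun v : ↥B => v.1 ∈ Y) ∧
      head' e' ∉ (univ.filter fun v : ↥B => v.1 ∈ Y)).card ≤
      (univ.filter fun e' : E => tail e' ∈ Y ∧ head e' ∉ Y).card := by
    refine card_le_card_of_injOn Subtype.val ?_ (fun a _ b _ h => Subtype.ext h)
    intro a ha
    obtain ⟨_, h3, h4⟩ := mem_filter.1 (mem_coe.1 ha)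
    refine mem_coe.2 (mem_filter.2 ⟨mem_univ _, (mem_filter.1 h3).2, fun h5 => h4 ?_⟩)
    exact mem_filter.2 ⟨mem_univ _, h5⟩
  have h3 : (univ.filter fun e' : E' => tail' e' = tail' e ∧ head' e' = head' e).card ≤
      (univ.filter fun e' : E => tail e' = tail e.1 ∧ head e' = head e.1).card := by
    refine card_le_card_of_injOn Subtype.val ?_ (fun a _ b _ h => Subtype.ext h)
    intro a ha
    obtain ⟨_, h4, h5⟩ := mem_filter.1 (mem_coe.1 ha)
    exact mem_coe.2 (mem_filter.2 ⟨mem_univ _, congrArg Subtype.val h4, congrArg Subtype.val h5⟩)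
  omega

end Pool.Agent.Work.MP_542d22_co.S
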