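import Pool.Agent.Work.MP_542d22_co.S.Defs

/-!
MODULE TreeDet (M). If the rates vanish outside a spanning in-arborescence `τ` with root `w0`, then `det (L + 1 e_{w0}^T) = ∏_{e ∈ τ} q e`.
Proof. Row `w0` of `Mat` is `e_{w0}` (no arc of `τ` starts in `w0`). Subtract row `w0` from all other rows (e.g. `Matrix.det_eq_of_forall_row_eq_smul_add_const`,
or multiply by a matrix of determinant one): the row of `y ≠ w0` becomes `q e (e_y - e_{head e})`, `e` = the arc of `τ` with tail `y`. Call the new matrix `A`.
Leibniz (`Matrix.det_apply`): if a permutation `σ` has `A (σ i) i ≠ 0` for all `i` then `d i <= d (σ i)`, with `<` if `σ i ≠ i` (d the depth function);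
sum over `i`: equality everywhere, so `σ = 1`. So `det A = ∏ A i i = ∏_{y ≠ w0} q e(y) = ∏_{e ∈ τ} q e` (bijection `y ↦ e(y)`, inverse `tail`).
(Here `A y w0` gets contributions only from `head e = w0`, fine.)
-/

set_option autoImplicit false
set_option linter.unusedSectionVars false

namespace Pool.Agent.Work.MP_542d22_co.S

open Finset

variable {V E : Type} [Fintype V] [DecidableEq V] [Fintype E] [DecidableEq E]

/-- the matrix after the row operation -/
private def Am (tail head : E → V) (q : E → ℝ) (w0 : V) : Matrix V V ℝ :=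
  Matrix.of fun y z => if y = w0 then (if z = w0 then 1 else 0) else
    ∑ e, if tail e = y then q e * ((if z = y then 1 else 0) - (if z = head e then 1 else 0)) else 0

private theorem det_Am (tail head : E → V) (q : E → ℝ) (w0 : V) (τ : Finset E)
    (hτ : IsArb tail head w0 τ) (hq : ∀ e, e ∉ τ → q e = 0) :
    (Mat tail head q w0).det = (Am tail head q w0).det := by
  refine Matrix.det_eq_of_forall_row_eq_smul_add_const (fun i => if i = w0 then 0 else 1) w0
    (if_pos rfl) fun y z => ?_
  simp only [Am, Mat, Matrix.of_apply]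
  by_cases hy : y = w0
  · rw [hy, if_pos rfl, if_pos rfl, zero_mul, add_zero]
    rw [Finset.sum_eq_zero, add_zero]
    intro e _
    by_cases he : tail e = w0
    · have : e ∉ τ := fun h => hτ.1 e h he
      rw [if_pos he, hq e this, zero_mul]
    · rw [if_neg he]
  · rw [if_neg hy, if_neg hy, one_mul, add_comm]
    simp only [if_true]

private theorem Am_row (tail head : E → V) (q : E → ℝ) (w0 : V) (τ : Finset E)
    (hτ : IsArb tail head w0 τ) (hq : ∀ e, e ∉ τ → q e = 0) {e : E} (he : e ∈ τ) (z : V) :
    Am tail head q w0 (tail e) z =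
      q e * ((if z = tail e then 1 else 0) - (if z = head e then 1 else 0)) := by
  simp only [Am, Matrix.of_apply]
  rw [if_neg (hτ.1 e he)]
  rw [Finset.sum_eq_single e]
  · rw [if_pos rfl]
  · intro e' _ hne
    by_cases h1 : tail e' = tail e
    · have : e' ∉ τ := fun h => hne (hτ.2.2.1 e' h e he h1)
      rw [if_pos h1, hq e' this, zero_mul]
    · rw [if_neg h1]
  · exact fun h => absurd (Finset.mem_univ e) h

private theorem det_diag (A : Matrix V V ℝ) (d : V → ℕ) (hA : ∀ y z, A y z ≠ 0 → z = y ∨ d z < d y) :
    A.det = ∏ y, A y y := by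
  rw [Matrix.det_apply', Finset.sum_eq_single 1]
  · simp
  · intro σ _ hσ
    by_contra hne
    have h1 : ∏ i, A (σ i) i ≠ 0 := fun h0 => hne (by rw [h0, mul_zero])
    have h2 : ∀ i, A (σ i) i ≠ 0 := fun i h0 => h1 (Finset.prod_eq_zero (Finset.mem_univ i) h0)
    have h3 : ∃ i, σ i ≠ i := by
      by_contra hc
      push Not at hc
      exact hσ (Equiv.ext hc)
    obtain ⟨i, hi⟩ := h3
    have h4 : ∑ i, d i < ∑ i, d (σ i) := by
      refine Finset.sum_lt_sum (fun j _ => ?_) ⟨i, Finset.mem_univ i, ?_⟩
      · rcases hA _ _ (h2 j) with h5 | h5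
        · exact (congrArg d h5).le
        · exact h5.le
      · rcases hA _ _ (h2 i) with h5 | h5
        · exact absurd h5.symm hi
        · exact h5
    rw [Equiv.sum_comp σ d] at h4
    exact lt_irrefl _ h4
  · exact fun h => absurd (Finset.mem_univ _) h

theorem tree_det (tail head : E → V) (q : E → ℝ) (w0 : V) (τ : Finset E) (hτ : IsArb tail head w0 τ)
    (hq : ∀ e, e ∉ τ → q e = 0) : (Mat tail head q w0).det = ∏ e ∈ τ, q e := by
  obtain ⟨d, hd⟩ := hτ.2.2.2
  have hA0 : Am tail head q w0 w0 w0 = 1 := by
    simp [Am]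
  rw [det_Am tail head q w0 τ hτ hq, det_diag _ d]
  · have h1 : ∏ e ∈ τ, q e = ∏ e ∈ τ, Am tail head q w0 (tail e) (tail e) := by
      refine Finset.prod_congr rfl fun e he => ?_
      rw [Am_row tail head q w0 τ hτ hq he, if_pos rfl, if_neg, sub_zero, mul_one]
      intro h2
      have := hd e he
      rw [← h2] at this
      exact lt_irrefl _ this
    have h2 : τ.image tail = Finset.univ.erase w0 := by
      ext v
      simp only [Finset.mem_image, Finset.mem_erase, Finset.mem_univ, and_true]
      constructor
      · rintro ⟨e, he, rfl⟩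
        exact hτ.1 e he
      · exact fun hv => hτ.2.1 v hv
    have h3 : ∏ e ∈ τ, Am tail head q w0 (tail e) (tail e) =
        ∏ y ∈ τ.image tail, Am tail head q w0 y y :=
      (Finset.prod_image (f := fun y => Am tail head q w0 y y)
        (fun e he e' he' h => hτ.2.2.1 e he e' he' h)).symm
    rw [h1, h3, h2]
    exact (Finset.prod_erase (f := fun y => Am tail head q w0 y y) _ hA0).symm
  · intro y z hyz
    by_cases hy : y = w0
    · left
      rw [hy] at hyz ⊢
      by_contra hz
      apply hyz
      simp [Am, hz]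
    · obtain ⟨e, he, rfl⟩ := hτ.2.1 y hy
      rw [Am_row tail head q w0 τ hτ hq he] at hyz
      by_cases hz : z = tail e
      · exact Or.inl hz
      · right
        by_cases hz' : z = head e
        · rw [hz']
          exact hd e he
        · exact absurd (by rw [if_neg hz, if_neg hz', sub_zero, mul_zero]) hyz

end Pool.Agent.Work.MP_542d22_co.S
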