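import Pool.Agent.Work.MP_542d22_co.S.MaxP
import Pool.Agent.Work.MP_542d22_co.S.DetUp
import Pool.Agent.Work.MP_542d22_co.S.TreeDet

/-!
MODULE Lower (M). `T(q) = det (L + 1 e_{v0}^T) >= ∏_{e ∈ τ} q e > 0` for every spanning in-arborescence `τ`.
Proof. By `det_root` take `v0 = w0`. For a finite set `A` with `τ ⊆ A` let `q_A = q` on `A`, 0 outside. Induction over `A` (Finset.induction on `A \ τ`):
`det (Mat q_A) >= ∏_{e∈τ} q e > 0`. Base `A = τ`: `tree_det`. Step `A → insert e A`: `q_{insert e A} = Function.update q_A e (0 + q e)`, `det_update` with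
`t = q e > 0` gives `det (Mat q_A) * (1 + q e * Dm (head e) (tail e))`, and `Dm >= 0` by `maxp` applied to `g = Z(·, tail e)`: `Mat * Z = 1` and `mulVec_Mat`
give the hypothesis `hg` (with `v0 = w0`); a nonempty set closed for `q_A` is closed under the arcs of `τ` (their rates are positive), so it contains `w0`
(take an element of minimal depth `d`; if it is not `w0` its `τ`-arc leads to a smaller depth inside the set).
-/

set_option autoImplicit false
set_option linter.unusedSectionVars false

namespace Pool.Agent.Work.MP_542d22_co.S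

open Finset

variable {V E : Type} [Fintype V] [DecidableEq V] [Fintype E] [DecidableEq E]

/-- the rates restricted to `A` -/
private def qr (q : E → ℝ) (A : Finset E) (e : E) : ℝ := if e ∈ A then q e else 0

private theorem root_mem (tail head : E → V) (q : E → ℝ) (hq : ∀ e, 0 < q e) (w0 : V) (τ : Finset E)
    (hτ : IsArb tail head w0 τ) {A : Finset E} (hA : τ ⊆ A) (S : Finset V) (hS : S.Nonempty)
    (hcl : Closed tail head (qr q A) S) : w0 ∈ S := by
  obtain ⟨d, hd⟩ := hτ.2.2.2
  obtain ⟨v, hv, hmin⟩ := Finset.exists_min_image S d hS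
  by_cases hvw : v = w0
  · rwa [← hvw]
  · obtain ⟨e, he, h1⟩ := hτ.2.1 v hvw
    have h2 : head e ∈ S := hcl e (by
      rw [qr, if_pos (hA he)]
      exact hq e) (by rwa [h1])
    have h3 := hmin _ h2
    have h4 := hd e he
    rw [h1] at h4
    exact absurd h3 (not_le.2 h4)

private theorem Dm_nonneg (tail head : E → V) (q : E → ℝ) (hq : ∀ e, 0 ≤ q e) (w0 : V)
    (hcl : ∀ S : Finset V, S.Nonempty → Closed tail head q S → w0 ∈ S)
    (hdet : (Mat tail head q w0).det ≠ 0) (z w : V) : 0 ≤ Dm tail head q w0 z w := by
  have h1 : ∀ y, Lap tail head q (fun y => (Mat tail head q w0)⁻¹ y w) y +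
      (Mat tail head q w0)⁻¹ w0 w = if y = w then 1 else 0 := by
    intro y
    rw [add_comm, ← mulVec_Mat tail head q w0 (fun y => (Mat tail head q w0)⁻¹ y w) y]
    have h2 : Mat tail head q w0 * (Mat tail head q w0)⁻¹ = 1 :=
      Matrix.mul_nonsing_inv _ (isUnit_iff_ne_zero.2 hdet)
    have h3 := congrFun (congrFun h2 y) w
    rw [Matrix.mul_apply, Matrix.one_apply] at h3
    exact h3
  have h2 := maxp tail head q hq w0 hcl w0 w (fun y => (Mat tail head q w0)⁻¹ y w) h1 z
  unfold Dm
  exact sub_nonneg.2 h2

theorem lower (tail head : E → V) (q : E → ℝ) (hq : ∀ e, 0 < q e) (v0 w0 : V) (τ : Finset E)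
    (hτ : IsArb tail head w0 τ) : ∏ e ∈ τ, q e ≤ (Mat tail head q v0).det := by
  rw [det_root tail head q w0 v0]
  have hpos : 0 < ∏ e ∈ τ, q e := Finset.prod_pos fun e _ => hq e
  have key : ∀ B : Finset E, ∏ e ∈ τ, q e ≤ (Mat tail head (qr q (τ ∪ B)) w0).det := by
    intro B
    induction B using Finset.induction_on with
    | empty =>
      rw [Finset.union_empty, tree_det tail head (qr q τ) w0 τ hτ fun e he => if_neg he]
      exact (Finset.prod_congr rfl fun e he => (if_pos he).symm).le
    | insert e B heB ih =>
      by_cases he : e ∈ τ ∪ B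
      · have : τ ∪ insert e B = τ ∪ B := by
          rw [Finset.union_insert, Finset.insert_eq_of_mem he]
        rw [this]
        exact ih
      · have h1 : qr q (τ ∪ insert e B) =
            Function.update (qr q (τ ∪ B)) e (qr q (τ ∪ B) e + q e) := by
          funext e'
          rw [Finset.union_insert]
          by_cases hee : e' = e
          · rw [hee, Function.update_self]
            simp only [qr, if_neg he, if_pos (Finset.mem_insert_self e _), zero_add]
          · rw [Function.update_of_ne hee]
            simp only [qr, Finset.mem_insert, hee, false_or]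
        have hne : (Mat tail head (qr q (τ ∪ B)) w0).det ≠ 0 := (hpos.trans_le ih).ne'
        rw [h1, det_update tail head _ w0 e (q e) hne]
        have h2 := Dm_nonneg tail head (qr q (τ ∪ B)) (fun e => by
          unfold qr
          split_ifs
          · exact (hq e).le
          · exact le_rfl) w0
          (fun S hS hcl => root_mem tail head q hq w0 τ hτ Finset.subset_union_left S hS hcl) hne
          (head e) (tail e)
        have h3 := mul_nonneg (hq e).le h2
        nlinarith [hpos.trans_le ih]
  have h1 := key Finset.univ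
  have h2 : qr q (τ ∪ Finset.univ) = q := by
    funext e
    simp [qr]
  rwa [h2] at h1

end Pool.Agent.Work.MP_542d22_co.S
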