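import Pool.Agent.Work.MP_542d22_co.S.Defs

set_option autoImplicit false
set_option linter.unusedSectionVars false

namespace Pool.Agent.Work.MP_542d22_co.S

open Finset

variable {V E : Type} [Fintype V] [DecidableEq V] [Fintype E] [DecidableEq E]

theorem maxp (tail head : E → V) (q : E → ℝ) (hq : ∀ e, 0 ≤ q e) (w0 : V)
    (hcl : ∀ S : Finset V, S.Nonempty → Closed tail head q S → w0 ∈ S) (v0 w : V) (g : V → ℝ)
    (hg : ∀ y, Lap tail head q g y + g v0 = if y = w then 1 else 0) : ∀ z, g z ≤ g w := by
  by_contra hcon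
  push Not at hcon
  obtain ⟨z, hz⟩ := hcon
  obtain ⟨a, -, ha⟩ := Finset.exists_max_image univ g ⟨w, mem_univ w⟩
  obtain ⟨b, -, hb⟩ := Finset.exists_min_image univ g ⟨w, mem_univ w⟩
  have haw : g w < g a := lt_of_lt_of_le hz (ha z (mem_univ z))
  -- terms at maximisers and minimisers
  have tmax : ∀ y, g y = g a → ∀ e, 0 ≤ (if tail e = y then q e * (g y - g (head e)) else 0) := by
    intro y hy e
    split_ifs
    · exact mul_nonneg (hq e) (by rw [hy]; linarith [ha (head e) (mem_univ _)])
    · exact le_refl _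
  have tmin : ∀ y, g y = g b → ∀ e, (if tail e = y then q e * (g y - g (head e)) else 0) ≤ 0 := by
    intro y hy e
    split_ifs
    · exact mul_nonpos_of_nonneg_of_nonpos (hq e) (by rw [hy]; linarith [hb (head e) (mem_univ _)])
    · exact le_refl _
  have ha1 : a ≠ w := fun h => by rw [h] at haw; exact lt_irrefl _ haw
  have hga := hg a
  rw [if_neg ha1] at hga
  have hLa : 0 ≤ Lap tail head q g a := Finset.sum_nonneg fun e _ => tmax a rfl e
  have hLb : Lap tail head q g b ≤ 0 := Finset.sum_nonpos fun e _ => tmin b rfl e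
  have hgb := hg b
  have hb1 : b ≠ w := by
    intro h
    rw [if_pos h] at hgb
    linarith
  rw [if_neg hb1] at hgb
  have hc : g v0 = 0 := by linarith
  -- closedness
  have h1 : w0 ∈ univ.filter (fun y => g y = g a) := by
    apply hcl _ ⟨a, by simp⟩
    intro e he ht
    rw [Finset.mem_filter] at ht ⊢
    refine ⟨mem_univ _, ?_⟩
    have hne : tail e ≠ w := fun h => by rw [h] at ht; linarith [ht.2]
    have h2 := hg (tail e)
    rw [if_neg hne, hc, add_zero] at h2
    have h3 := (Finset.sum_eq_zero_iff_of_nonneg (fun e' _ => tmax (tail e) ht.2 e')).1 h2 e (mem_univ e)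
    rw [if_pos rfl] at h3
    rcases mul_eq_zero.1 h3 with h4 | h4
    · linarith
    · rw [← ht.2]; linarith
  have h2 : w0 ∈ univ.filter (fun y => g y = g b) := by
    apply hcl _ ⟨b, by simp⟩
    intro e he ht
    rw [Finset.mem_filter] at ht ⊢
    refine ⟨mem_univ _, ?_⟩
    have hne : tail e ≠ w := by
      intro h
      have h3 := hg (tail e)
      rw [if_pos h, hc, add_zero] at h3
      have h4 : Lap tail head q g (tail e) ≤ 0 :=
        Finset.sum_nonpos fun e' _ => tmin (tail e) ht.2 e'
      linarith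
    have h2 := hg (tail e)
    rw [if_neg hne, hc, add_zero] at h2
    have h3 := (Finset.sum_eq_zero_iff_of_nonpos (fun e' _ => tmin (tail e) ht.2 e')).1 h2 e (mem_univ e)
    rw [if_pos rfl] at h3
    rcases mul_eq_zero.1 h3 with h4 | h4
    · linarith
    · rw [← ht.2]; linarith
  rw [Finset.mem_filter] at h1 h2
  have h3 := hb w (mem_univ w)
  linarith [h1.2, h2.2]

end Pool.Agent.Work.MP_542d22_co.S
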