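import Pool.Agent.Work.MP_542d22_co.S.Defs
import Pool.Agent.Work.MP_542d22_co.S.Edmonds

/-!
MODULE Packing (M). For every arc `a` there are `r` disjoint spanning in-arborescences avoiding `a`.
Proof. `δ' v = δ v + [v = tail a]`, and add the missing `r - ∑ δ'` tokens at any vertex (e.g. at `tail a`), so that `∑ δ' = r`. Arc type
`E' = {e // e ≠ a} ⊕ (Σ v, Fin (δ' v))`, tail' as expected, head' = `some (head e)` for arcs, `none` for tokens. The hypothesis of `edmonds` with `k = r`:
for `S ≠ univ`: `d_{E \ a}(S) + ∑_S δ' >= d_E(S) + ∑_S δ >= r` (if `a` leaves `S` then `tail a ∈ S` has one more token); for `S = univ`: `∑ δ' = r`.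
Each of the `r` arborescences contains at least one token (a vertex of minimal depth has its arc to `none`), there are only `r` tokens and the arborescences are
disjoint, so each contains exactly one; its tail is the root `w i`, and the arcs (not the token) form `F i` (`IsArb`).
-/

set_option autoImplicit false
set_option linter.unusedSectionVars false

namespace Pool.Agent.Work.MP_542d22_co.S

open Finset

variable {V E : Type} [Fintype V] [DecidableEq V] [Fintype E] [DecidableEq E]

theorem packing (tail head : E → V) (r : ℕ) (δ : V → ℕ) (hsum : ∑ v, δ v < r)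
    (hcut : ∀ S : Finset V, S.Nonempty → S ≠ univ →
      r ≤ (univ.filter fun e => tail e ∈ S ∧ head e ∉ S).card + ∑ v ∈ S, δ v) (a : E) :
    ∃ (F : Fin r → Finset E) (w : Fin r → V), (∀ i j, i ≠ j → Disjoint (F i) (F j)) ∧
      ∀ i, a ∉ F i ∧ IsArb tail head (w i) (F i) := by
  classical
  obtain ⟨c, hc⟩ : ∃ c, c = r - ∑ v, δ v := ⟨_, rfl⟩
  have hc1 : 1 ≤ c := by omega
  set δ' : V → ℕ := fun v => δ v + if v = tail a then c else 0 with hδ'
  have hsum' : ∑ v, δ' v = r := by
    rw [hδ', Finset.sum_add_distrib, Finset.sum_ite_eq' univ (tail a) (fun _ => c),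
      if_pos (mem_univ _)]
    omega
  let tail' : {e : E // e ≠ a} ⊕ (Σ v, Fin (δ' v)) → V := Sum.elim (fun e => tail e.1) (fun t => t.1)
  let head' : {e : E // e ≠ a} ⊕ (Σ v, Fin (δ' v)) → Option V :=
    Sum.elim (fun e => some (head e.1)) (fun _ => none)
  have hyp : ∀ S : Finset V, S.Nonempty →
      r ≤ (univ.filter fun e => tail' e ∈ S ∧ ∀ v ∈ S, head' e ≠ some v).card := by
    intro S hS
    -- arcs
    have h1 : ((univ.filter fun e : E => tail e ∈ S ∧ head e ∉ S).erase a).card
        + ∑ v ∈ S, δ' v ≤ (univ.filter fun e => tail' e ∈ S ∧ ∀ v ∈ S, head' e ≠ some v).card := by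
      have e1 : (((univ.filter fun e : E => tail e ∈ S ∧ head e ∉ S).erase a).attach.image
          (fun x : {x // x ∈ (univ.filter fun e : E => tail e ∈ S ∧ head e ∉ S).erase a} =>
            (Sum.inl ⟨x.1, (mem_erase.1 x.2).1⟩ : {e : E // e ≠ a} ⊕ (Σ v, Fin (δ' v)))) ∪
          (S.sigma (fun v => (univ : Finset (Fin (δ' v))))).image
            (fun t => (Sum.inr t : {e : E // e ≠ a} ⊕ (Σ v, Fin (δ' v)))))
          ⊆ (univ.filter fun e => tail' e ∈ S ∧ ∀ v ∈ S, head' e ≠ some v) := by
        intro x hx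
        rw [mem_union] at hx
        rcases hx with hx | hx
        · obtain ⟨y, _, rfl⟩ := mem_image.1 hx
          have hy := (mem_filter.1 (mem_erase.1 y.2).2).2
          refine mem_filter.2 ⟨mem_univ _, hy.1, fun v hv h => ?_⟩
          have h' : head y.1 = v := by simpa [head'] using h
          exact hy.2 (h' ▸ hv)
        · obtain ⟨t, ht, rfl⟩ := mem_image.1 hx
          refine mem_filter.2 ⟨mem_univ _, (mem_sigma.1 ht).1, fun v _ h => ?_⟩
          simp [head'] at h
      refine le_trans (le_of_eq ?_) (card_le_card e1)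
      rw [card_union_of_disjoint]
      · rw [card_image_of_injective, card_attach, card_image_of_injective, card_sigma]
        · simp
        · exact Sum.inr_injective
        · intro x y hxy
          have h2 := Sum.inl_injective hxy
          exact Subtype.ext (Subtype.mk.inj h2)
      · rw [disjoint_left]
        intro x hx hy
        obtain ⟨y, _, rfl⟩ := mem_image.1 hx
        obtain ⟨t, _, ht⟩ := mem_image.1 hy
        cases ht
    refine le_trans ?_ h1
    by_cases hSu : S = univ
    · subst hSu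
      rw [hsum']
      omega
    · have h2 := hcut S hS hSu
      have h3 : ∑ v ∈ S, δ' v = ∑ v ∈ S, δ v + if tail a ∈ S then c else 0 := by
        rw [hδ', Finset.sum_add_distrib, Finset.sum_ite_eq' S (tail a) (fun _ => c)]
      by_cases ha : a ∈ (univ.filter fun e : E => tail e ∈ S ∧ head e ∉ S)
      · have h4 := card_erase_of_mem ha
        have h5 : tail a ∈ S := (mem_filter.1 ha).2.1
        rw [if_pos h5] at h3
        have h6 : 1 ≤ (univ.filter fun e : E => tail e ∈ S ∧ head e ∉ S).card :=
          card_pos.2 ⟨a, ha⟩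
        omega
      · rw [erase_eq_of_notMem ha]
        omega
  obtain ⟨F', hdisj, hF'⟩ := edmonds tail' head' r hyp
  -- tokens
  set Tok : Fin r → Finset (Σ v, Fin (δ' v)) :=
    fun i => univ.filter (fun t => Sum.inr t ∈ F' i) with hTok
  have htok1 : ∀ i, 1 ≤ (Tok i).card := by
    intro i
    obtain ⟨hall, _, d, hd⟩ := hF' i
    obtain ⟨v, _, hv⟩ := exists_min_image (univ : Finset V) d ⟨tail a, mem_univ _⟩
    obtain ⟨e, he, hev⟩ := hall v
    rcases e with e | t
    · have := hd _ he (head e.1) rfl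
      rw [hev] at this
      exact absurd (hv (head e.1) (mem_univ _)) (by omega)
    · exact card_pos.2 ⟨t, mem_filter.2 ⟨mem_univ _, he⟩⟩
  have htoksum : ∑ i, (Tok i).card ≤ r := by
    rw [← card_biUnion]
    · refine (card_le_univ _).trans (le_of_eq ?_)
      rw [Fintype.card_sigma]
      simp [hsum']
    · intro i _ j _ hij
      rw [Function.onFun, disjoint_left]
      intro t ht ht'
      exact disjoint_left.1 (hdisj i j hij) (mem_filter.1 ht).2 (mem_filter.1 ht').2
  have htok : ∀ i, (Tok i).card = 1 := by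
    by_contra hcon
    push Not at hcon
    obtain ⟨i, hi⟩ := hcon
    have h2 : ∑ _j : Fin r, 1 < ∑ j, (Tok j).card :=
      sum_lt_sum (fun j _ => htok1 j) ⟨i, mem_univ _, lt_of_le_of_ne (htok1 i) (Ne.symm hi)⟩
    simp at h2
    omega
  have htok' : ∀ i, ∃ t, Tok i = {t} := fun i => card_eq_one.1 (htok i)
  choose t ht using htok'
  have htmem : ∀ i, Sum.inr (t i) ∈ F' i := by
    intro i
    have : t i ∈ Tok i := by rw [ht i]; exact mem_singleton_self _
    exact (mem_filter.1 this).2
  have htuniq : ∀ i s, Sum.inr s ∈ F' i → s = t i := by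
    intro i s hs
    have : s ∈ Tok i := mem_filter.2 ⟨mem_univ _, hs⟩
    rw [ht i] at this
    exact mem_singleton.1 this
  set F : Fin r → Finset E :=
    fun i => univ.filter (fun e => ∃ h : e ≠ a, Sum.inl ⟨e, h⟩ ∈ F' i) with hF
  have hmemF : ∀ i e, e ∈ F i ↔ ∃ h : e ≠ a, Sum.inl ⟨e, h⟩ ∈ F' i := by
    intro i e
    rw [hF, mem_filter]
    simp
  refine ⟨F, fun i => (t i).1, fun i j hij => ?_, fun i => ⟨fun hmem => ?_, ?_, ?_, ?_, ?_⟩⟩
  · rw [disjoint_left]
    intro e he he'
    obtain ⟨h, h1⟩ := (hmemF i e).1 he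
    obtain ⟨_, h2⟩ := (hmemF j e).1 he'
    exact disjoint_left.1 (hdisj i j hij) h1 h2
  · obtain ⟨h, _⟩ := (hmemF i a).1 hmem
    exact h rfl
  · intro e he heq
    obtain ⟨h, h1⟩ := (hmemF i e).1 he
    have := (hF' i).2.1 _ h1 _ (htmem i) heq
    cases this
  · intro v hv
    obtain ⟨e, he, hev⟩ := (hF' i).1 v
    rcases e with e | s
    · exact ⟨e.1, (hmemF i e.1).2 ⟨e.2, he⟩, hev⟩
    · have := htuniq i s he
      subst this
      exact absurd hev.symm hv
  · intro e he e' he' hee'
    obtain ⟨h, h1⟩ := (hmemF i e).1 he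
    obtain ⟨h', h1'⟩ := (hmemF i e').1 he'
    have := (hF' i).2.1 _ h1 _ h1' hee'
    exact congrArg Subtype.val (Sum.inl_injective this)
  · obtain ⟨_, _, d, hd⟩ := hF' i
    refine ⟨d, fun e he => ?_⟩
    obtain ⟨h, h1⟩ := (hmemF i e).1 he
    exact hd _ h1 (head e) rfl

end Pool.Agent.Work.MP_542d22_co.S
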